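import Pool.Agent.helper33.Mod.Rand

/-!
# Decoupling of colour groups and the spread lemma
-/

namespace Pool.Agent.helper33.Mod

set_option linter.unusedSectionVars false

open Finset

variable {V : Type} [Fintype V] [DecidableEq V] {c : ℕ}

theorem card_group {g N j : ℕ} (hg : 1 ≤ g) (hN : N * g ≤ c) (hj : j < N) :
    (g : ℝ) ≤ ∑ i : Fin c, ind ((i : ℕ) / g = j) := by
  classical
  have h1 : ∑ i : Fin c, ind ((i : ℕ) / g = j) =
      ((univ.filter fun i : Fin c => (i : ℕ) / g = j).card : ℝ) := by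
    rw [← sum_ind_mem]
    exact sum_congr rfl fun i _ => ind_congr (by simp)
  rw [h1]
  have h2 : (j + 1) * g ≤ c := (Nat.mul_le_mul_right g hj).trans hN
  have h3 : ∀ r : Fin g, j * g + (r : ℕ) < c := by
    intro r
    have := r.2
    nlinarith
  have h4 : (univ : Finset (Fin g)).card ≤
      (univ.filter fun i : Fin c => (i : ℕ) / g = j).card := by
    refine card_le_card_of_injOn (fun r => ⟨j * g + (r : ℕ), h3 r⟩) ?_ ?_
    · intro r _
      simp only [coe_filter, mem_univ, true_and, Set.mem_ofPred_eq]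
      rw [mul_comm, Nat.mul_add_div (by omega), Nat.div_eq_of_lt r.2, add_zero]
    · intro r _ r' _ h
      have h5 : j * g + (r : ℕ) = j * g + (r' : ℕ) := congrArg Fin.val h
      exact Fin.ext (by omega)
  rw [card_univ, Fintype.card_fin] at h4
  exact_mod_cast h4

/-- One vertex: the indicators of disjoint colour groups are negatively correlated. -/
theorem one_vertex {g N : ℕ} (hc : 0 < c) (hg : 1 ≤ g) (hN : N * g ≤ c) (a b : ℕ → ℝ)
    (hb : ∀ j, 0 ≤ b j) (hab : ∀ j, b j ≤ a j) (J : Finset ℕ) (hJ : ∀ j ∈ J, j < N) :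
    ∑ i : Fin c, ∏ j ∈ J, (if (i : ℕ) / g = j then b j else a j) ≤
      c * ∏ j ∈ J, ((1 - (g : ℝ) / c) * a j + (g : ℝ) / c * b j) := by
  classical
  have hcR : (0 : ℝ) < c := by exact_mod_cast hc
  have ha : ∀ j, 0 ≤ a j := fun j => (hb j).trans (hab j)
  induction J using Finset.induction_on with
  | empty => simp
  | insert j0 J hj0 ih =>
    have ih' := ih (fun j hj => hJ j (mem_insert_of_mem hj))
    have hj0N : j0 < N := hJ j0 (mem_insert_self _ _)
    have hgN : g ≤ c := by
      have h1 : 1 * g ≤ N * g := Nat.mul_le_mul_right g (by omega)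
      omega
    have hgc : (g : ℝ) / c ≤ 1 := by
      rw [div_le_one hcR]
      exact_mod_cast hgN
    have hgc0 : 0 ≤ (g : ℝ) / c := by positivity
    set P : Fin c → ℝ := fun i => ∏ j ∈ J, (if (i : ℕ) / g = j then b j else a j) with hP
    have hP0 : ∀ i, 0 ≤ P i := fun i => prod_nonneg fun j _ => by
      split_ifs
      · exact hb j
      · exact ha j
    set A : ℝ := ∏ j ∈ J, a j with hA
    have hA0 : 0 ≤ A := prod_nonneg fun j _ => ha j
    have hPA : ∀ i, P i ≤ A := fun i => prod_le_prod (fun j _ => by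
      split_ifs
      · exact hb j
      · exact ha j) (fun j _ => by
      split_ifs
      · exact hab j
      · exact le_rfl)
    have h1 : ∀ i : Fin c, ∏ j ∈ insert j0 J, (if (i : ℕ) / g = j then b j else a j) =
        a j0 * P i - (a j0 - b j0) * A * ind ((i : ℕ) / g = j0) := by
      intro i
      rw [prod_insert hj0]
      by_cases h : (i : ℕ) / g = j0
      · rw [if_pos h, ind_true h]
        have h2 : P i = A := by
          refine prod_congr rfl fun j hj => ?_
          rw [if_neg]
          rintro rfl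
          exact hj0 (h ▸ hj)
        change b j0 * P i = _
        rw [h2]
        ring
      · rw [if_neg h, ind_false h]
        change a j0 * P i = _
        ring
    have hsum : ∑ i : Fin c, ∏ j ∈ insert j0 J, (if (i : ℕ) / g = j then b j else a j) =
        a j0 * ∑ i, P i - (a j0 - b j0) * A * ∑ i : Fin c, ind ((i : ℕ) / g = j0) := by
      rw [sum_congr rfl fun i _ => h1 i, sum_sub_distrib, mul_sum, mul_sum]
    have hG := card_group hg hN hj0N
    have hPs : ∑ i, P i ≤ c * A := by
      refine (sum_le_sum fun i _ => hPA i).trans ?_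
      simp
    have hPs0 : 0 ≤ ∑ i, P i := sum_nonneg fun i _ => hP0 i
    have hd : 0 ≤ a j0 - b j0 := by linarith [hab j0]
    have h3 : (g : ℝ) / c * ∑ i, P i ≤ A * ∑ i : Fin c, ind ((i : ℕ) / g = j0) := by
      calc (g : ℝ) / c * ∑ i, P i ≤ (g : ℝ) / c * (c * A) := mul_le_mul_of_nonneg_left hPs hgc0
        _ = A * g := by field_simp
        _ ≤ _ := mul_le_mul_of_nonneg_left hG hA0
    rw [hsum, prod_insert hj0]
    have h4 : a j0 * ∑ i, P i - (a j0 - b j0) * A * ∑ i : Fin c, ind ((i : ℕ) / g = j0) ≤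
        ((1 - (g : ℝ) / c) * a j0 + (g : ℝ) / c * b j0) * ∑ i, P i := by
      have h5 := mul_le_mul_of_nonneg_left h3 hd
      nlinarith
    refine h4.trans ?_
    have h6 : 0 ≤ (1 - (g : ℝ) / c) * a j0 + (g : ℝ) / c * b j0 := by
      have : 0 ≤ 1 - (g : ℝ) / c := by linarith
      exact add_nonneg (mul_nonneg this (ha _)) (mul_nonneg hgc0 (hb _))
    have h7 := mul_le_mul_of_nonneg_left ih' h6
    refine h7.trans (le_of_eq ?_)
    ring

/-- The vertices of `S` with colours in the group `j`. -/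
def Bg (g : ℕ) (h : V → Fin c) (j : ℕ) (S : Finset V) : Finset V :=
  S.filter fun v => ((h v : Fin c) : ℕ) / g = j

theorem Bg_update {g : ℕ} {S : Finset V} {v : V} (hv : v ∉ S) (h : V → Fin c) (i : Fin c)
    (j : ℕ) : Bg g (Function.update h v i) j (insert v S) =
      if (i : ℕ) / g = j then insert v (Bg g h j S) else Bg g h j S := by
  have h1 : ∀ w ∈ S, Function.update h v i w = h w := fun w hw =>
    Function.update_of_ne (by rintro rfl; exact hv hw) _ _
  unfold Bg
  rw [filter_insert, Function.update_self]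
  have h2 : S.filter (fun w => ((Function.update h v i w : Fin c) : ℕ) / g = j) =
      S.filter fun w => ((h w : Fin c) : ℕ) / g = j :=
    filter_congr fun w hw => by rw [h1 w hw]
  rw [h2]

/-- Decoupling. -/
theorem decouple {g N : ℕ} (hc : 0 < c) (hg : 1 ≤ g) (hN : N * g ≤ c)
    (J : (V → Fin c) → Finset ℕ) (hJN : ∀ h, ∀ j ∈ J h, j < N) (S : Finset V)
    (hJ : ∀ v ∈ S, ∀ h i, J (Function.update h v i) = J h) :
    ∀ f : Finset V → ℝ, (∀ B, 0 ≤ f B) → (∀ B B', B ⊆ B' → f B' ≤ f B) →
      ∑ h : V → Fin c, ∏ j ∈ J h, f (Bg g h j S) ≤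
        ∑ h : V → Fin c, (Ep ((g : ℝ) / c) S f) ^ (J h).card := by
  classical
  have hcR : (0 : ℝ) < c := by exact_mod_cast hc
  induction S using Finset.induction_on with
  | empty =>
    intro f _ _
    refine sum_le_sum fun h _ => ?_
    rw [Ep_empty]
    unfold Bg
    simp
  | insert v S hv ih =>
    intro f hf0 hfm
    have ih' := ih (fun w hw => hJ w (mem_insert_of_mem hw))
    by_cases hN0 : N = 0
    · have hJe : ∀ h, J h = ∅ := by
        intro h
        refine eq_empty_of_forall_notMem fun j hj => ?_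
        have := hJN h j hj
        omega
      simp [hJe]
    have hgN : g ≤ c := by
      have h1 : 1 * g ≤ N * g := Nat.mul_le_mul_right g (by omega)
      omega
    have hgc : (g : ℝ) / c ≤ 1 := by
      rw [div_le_one hcR]
      exact_mod_cast hgN
    have hgc0 : 0 ≤ (g : ℝ) / c := by positivity
    set f' : Finset V → ℝ := fun B => (1 - (g : ℝ) / c) * f B + (g : ℝ) / c * f (insert v B)
      with hf'
    have h1g : 0 ≤ 1 - (g : ℝ) / c := by linarith
    have h1 := ih' f' (fun B => add_nonneg (mul_nonneg h1g (hf0 _)) (mul_nonneg hgc0 (hf0 _)))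
      (fun B B' hB => add_le_add (mul_le_mul_of_nonneg_left (hfm _ _ hB) h1g)
        (mul_le_mul_of_nonneg_left (hfm _ _ (insert_subset_insert _ hB)) hgc0))
    rw [Ep_insert _ hv]
    refine le_trans ?_ h1
    have h2 := sum_resample v (fun h : V → Fin c => ∏ j ∈ J h, f (Bg g h j (insert v S)))
    have h3 : ∀ h : V → Fin c, ∑ i : Fin c, ∏ j ∈ J (Function.update h v i),
        f (Bg g (Function.update h v i) j (insert v S)) ≤ c * ∏ j ∈ J h, f' (Bg g h j S) := by
      intro h
      have h4 := one_vertex hc hg hN (fun j => f (Bg g h j S))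
        (fun j => f (insert v (Bg g h j S))) (fun j => hf0 _)
        (fun j => hfm _ _ (subset_insert _ _)) (J h) (hJN h)
      refine le_trans (le_of_eq ?_) h4
      refine sum_congr rfl fun i _ => ?_
      rw [hJ v (mem_insert_self _ _)]
      refine prod_congr rfl fun j _ => ?_
      rw [Bg_update hv]
      split_ifs <;> rfl
    have h5 := sum_le_sum fun h (_ : h ∈ (univ : Finset (V → Fin c))) => h3 h
    rw [h2, ← mul_sum] at h5
    exact le_of_mul_le_mul_left h5 hcR

/-- The spread lemma. -/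
theorem spread {g l N k : ℕ} (hc : 0 < c) (hg : 1 ≤ g) (hN : (l + N) * g ≤ c) {R : ℝ}
    (hR : 0 < R) {U : Finset V} (hU : U.card ≤ l) {E : Finset (Finset V)} (hE : E.Nonempty)
    (hQ : ∀ Q ∈ E, U ⊆ Q ∧ Q.card = k)
    (hsp : ∀ Z : Finset V, Z.Nonempty →
      ∑ Q ∈ E, ind (Z ⊆ Q \ U) ≤ 2 * (1 / R) ^ Z.card * E.card)
    (hx : (k : ℝ) * (c / g * (1 / R)) ≤ 1 / 4) :
    cn (fun h : V → Fin c => ∀ Q ∈ E, ∃ v ∈ Q \ U, h v ∈ U.image h) ≤
      (1 / 2) ^ N * (c : ℝ) ^ Fintype.card V := by
  classical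
  have hcR : (0 : ℝ) < c := by exact_mod_cast hc
  have hgR : (0 : ℝ) < g := by exact_mod_cast (by omega : 0 < g)
  by_cases hN0 : N = 0
  · subst hN0
    rw [pow_zero, one_mul, ← cn_true (V := V) (c := c)]
    exact cn_mono fun _ _ => trivial
  have hgN : g ≤ c := by
    have h1 : 1 * g ≤ (l + N) * g := Nat.mul_le_mul_right g (by omega)
    omega
  set J : (V → Fin c) → Finset ℕ := fun h =>
    (range (l + N)).filter fun j => ∀ u ∈ U, ((h u : Fin c) : ℕ) / g ≠ j with hJ
  set f : Finset V → ℝ := fun B => ind (∀ Q ∈ E, ¬ Q \ U ⊆ B) with hf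
  have hJcard : ∀ h, N ≤ (J h).card := by
    intro h
    have h1 : range (l + N) ⊆ J h ∪ U.image fun u => ((h u : Fin c) : ℕ) / g := by
      intro j hj
      by_cases h2 : ∀ u ∈ U, ((h u : Fin c) : ℕ) / g ≠ j
      · exact mem_union_left _ (mem_filter.2 ⟨hj, h2⟩)
      · push Not at h2
        obtain ⟨u, hu, he⟩ := h2
        exact mem_union_right _ (mem_image.2 ⟨u, hu, he⟩)
    have h2 := (card_le_card h1).trans (card_union_le _ _)
    have h3 : (U.image fun u => ((h u : Fin c) : ℕ) / g).card ≤ U.card := card_image_le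
    rw [card_range] at h2
    omega
  have hdec := decouple (g := g) (N := l + N) hc hg hN J
    (fun h j hj => mem_range.1 (mem_filter.1 hj).1) Uᶜ (by
      intro v hv h i
      rw [hJ]
      refine filter_congr fun j _ => ?_
      refine forall₂_congr fun u hu => ?_
      rw [Function.update_of_ne]
      rintro rfl
      exact (mem_compl.1 hv) hu) f (fun B => ind_nonneg _) (fun B B' hB => ind_mono
        (fun h Q hQE hs => h Q hQE (hs.trans hB)))
  have hsm : Ep ((g : ℝ) / c) Uᶜ f ≤ 1 / 2 := by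
    refine second_moment (κ := k - U.card) (by positivity) (by
      rw [div_le_one hcR]; exact_mod_cast hgN) hR (fun Q => Q \ U) hE ?_ hsp ?_
    · intro Q hQE
      refine ⟨?_, ?_⟩
      · intro v hv
        exact mem_compl.2 (mem_sdiff.1 hv).2
      · rw [card_sdiff_of_subset (hQ Q hQE).1, (hQ Q hQE).2]
    · have h1 : (1 : ℝ) / (g / c) = c / g := by field_simp
      rw [h1]
      refine le_trans ?_ hx
      refine mul_le_mul_of_nonneg_right ?_ (by positivity)
      exact_mod_cast Nat.sub_le _ _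
  have hEp0 : 0 ≤ Ep ((g : ℝ) / c) Uᶜ f := by
    have h1 := Ep_mono (p := (g : ℝ) / c) (by positivity) (by
      rw [div_le_one hcR]; exact_mod_cast hgN) (S := Uᶜ) (f := fun _ => 0) (g := f)
      (fun B _ => ind_nonneg _)
    rwa [Ep_const] at h1
  have h1 : cn (fun h : V → Fin c => ∀ Q ∈ E, ∃ v ∈ Q \ U, h v ∈ U.image h) ≤
      ∑ h : V → Fin c, ∏ j ∈ J h, f (Bg g h j Uᶜ) := by
    refine sum_le_sum fun h _ => ?_
    by_cases hev : ∀ Q ∈ E, ∃ v ∈ Q \ U, h v ∈ U.image h
    · rw [ind_true hev]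
      refine le_of_eq (Eq.symm (prod_eq_one fun j hj => ind_true ?_))
      intro Q hQE hs
      obtain ⟨v, hv, hvU⟩ := hev Q hQE
      obtain ⟨u, hu, he⟩ := mem_image.1 hvU
      have h2 := (mem_filter.1 (hs hv)).2
      have h3 := (mem_filter.1 hj).2 u hu
      rw [he] at h3
      exact h3 h2
    · rw [ind_false hev]
      exact prod_nonneg fun j _ => ind_nonneg _
  refine h1.trans (hdec.trans ?_)
  have h2 : ∀ h : V → Fin c, Ep ((g : ℝ) / c) Uᶜ f ^ (J h).card ≤ (1 / 2) ^ N := by
    intro h
    refine (pow_le_pow_left₀ hEp0 hsm _).trans ?_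
    exact pow_le_pow_of_le_one (by norm_num) (by norm_num) (hJcard h)
  refine (sum_le_sum fun h _ => h2 h).trans ?_
  rw [sum_const, card_univ, Fintype.card_fun, Fintype.card_fin, nsmul_eq_mul]
  push_cast
  rw [mul_comm]

end Pool.Agent.helper33.Mod
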