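import Pool.Agent.helper33.Mod.Closed
import Pool.Agent.helper33.Mod.Spread

/-!
# One gate: an arbitrary monotone function of `d` closed families
-/

namespace Pool.Agent.helper33.Mod

set_option linter.unusedSectionVars false

open Finset

variable {V : Type} [Fintype V] [DecidableEq V] {c : ℕ}

/-- Acceptance of a set of vertices (a clique) by the members with at most `l` elements. -/
def AccQ (l : ℕ) (A : Finset (Finset V)) (Q : Finset V) : Prop := ∃ K ∈ A, K.card ≤ l ∧ K ⊆ Q

/-- Acceptance of a colouring by the members with at most `l` elements. -/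
def AccH (l : ℕ) (A : Finset (Finset V)) (h : V → Fin c) : Prop :=
  ∃ K ∈ A, K.card ≤ l ∧ Inj h K

theorem choose_bound {M k : ℕ} (hkM : k ≤ M) (hM : 0 < M) : ∀ z : ℕ, z ≤ k →
    ((M - z).choose (k - z) : ℝ) ≤ ((k : ℝ) / M) ^ z * M.choose k := by
  have hMR : (0 : ℝ) < M := by exact_mod_cast hM
  intro z
  induction z with
  | zero => intro _; simp
  | succ z ih =>
    intro hz
    have ih' := ih (by omega)
    obtain ⟨a, ha⟩ : ∃ a, M - z = a + 1 := ⟨M - z - 1, by omega⟩
    obtain ⟨b, hb⟩ : ∃ b, k - z = b + 1 := ⟨k - z - 1, by omega⟩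
    have e1 : M - (z + 1) = a := by omega
    have e2 : k - (z + 1) = b := by omega
    rw [ha, hb] at ih'
    rw [e1, e2]
    have h1 := Nat.add_one_mul_choose_eq a b
    have h2 : ((a : ℝ) + 1) * a.choose b = (a + 1).choose (b + 1) * ((b : ℝ) + 1) := by
      exact_mod_cast h1
    have ha1 : (0 : ℝ) < a + 1 := by positivity
    have h3 : ((b : ℝ) + 1) * M ≤ k * ((a : ℝ) + 1) := by
      have h4 : (b + 1) * M ≤ k * (a + 1) := by
        rw [← ha, ← hb]
        have h5 : (k - z) * M = k * M - z * M := Nat.sub_mul _ _ _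
        have h6 : k * (M - z) = k * M - k * z := Nat.mul_sub _ _ _
        rw [h5, h6]
        have h7 : k * z ≤ z * M := by
          rw [mul_comm]
          exact Nat.mul_le_mul_left _ hkM
        omega
      exact_mod_cast h4
    have h8 : (a.choose b : ℝ) ≤ (k : ℝ) / M * ((a + 1).choose (b + 1) : ℝ) := by
      have h9 : (a.choose b : ℝ) = (a + 1).choose (b + 1) * ((b : ℝ) + 1) / ((a : ℝ) + 1) := by
        field_simp
        linarith
      rw [h9, div_le_iff₀ ha1]
      have h10 : (0 : ℝ) ≤ ((a + 1).choose (b + 1) : ℝ) := by positivity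
      have h11 : ((b : ℝ) + 1) ≤ (k : ℝ) / M * ((a : ℝ) + 1) := by
        rw [div_mul_eq_mul_div, le_div_iff₀ hMR]
        exact h3
      nlinarith
    refine h8.trans ?_
    have hkm0 : 0 ≤ (k : ℝ) / M := by positivity
    calc (k : ℝ) / M * ((a + 1).choose (b + 1) : ℝ) ≤ (k : ℝ) / M * (((k : ℝ) / M) ^ z * M.choose k) :=
          mul_le_mul_of_nonneg_left ih' hkm0
      _ = ((k : ℝ) / M) ^ (z + 1) * M.choose k := by ring

/-- The number of `k`-sets which contain a given set. -/
theorem card_super {k : ℕ} (hV : 0 < Fintype.card V) (Z : Finset V) :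
    ∑ Q ∈ powersetCard k (univ : Finset V), ind (Z ⊆ Q) ≤
      ((k : ℝ) / Fintype.card V) ^ Z.card * (Fintype.card V).choose k := by
  classical
  by_cases hk : k ≤ Fintype.card V
  · by_cases hz : Z.card ≤ k
    · have h1 : ∑ Q ∈ powersetCard k (univ : Finset V), ind (Z ⊆ Q) =
          (((powersetCard k (univ : Finset V)).filter fun Q => Z ⊆ Q).card : ℝ) := by
        rw [card_filter]
        push_cast
        refine sum_congr rfl fun Q _ => ?_
        by_cases h : Z ⊆ Q
        · rw [ind_true h, if_pos h]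
        · rw [ind_false h, if_neg h]
      rw [h1]
      have h2 : ((powersetCard k (univ : Finset V)).filter fun Q => Z ⊆ Q).card ≤
          (powersetCard (k - Z.card) Zᶜ).card := by
        refine card_le_card_of_injOn (fun Q => Q \ Z) ?_ ?_
        · intro Q hQ
          have h3 := mem_filter.1 (mem_coe.1 hQ)
          have h4 := mem_powersetCard.1 h3.1
          refine mem_coe.2 (mem_powersetCard.2 ⟨?_, ?_⟩)
          · intro v hv
            exact mem_compl.2 (mem_sdiff.1 hv).2
          · rw [card_sdiff_of_subset h3.2, h4.2]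
        · intro Q hQ Q' hQ' he
          have h3 := (mem_filter.1 (mem_coe.1 hQ)).2
          have h4 := (mem_filter.1 (mem_coe.1 hQ')).2
          have he' : Q \ Z = Q' \ Z := he
          calc Q = Q \ Z ∪ Z := (sdiff_union_of_subset h3).symm
            _ = Q' \ Z ∪ Z := by rw [he']
            _ = Q' := sdiff_union_of_subset h4
      rw [card_powersetCard, card_compl] at h2
      have h3 : (((powersetCard k (univ : Finset V)).filter fun Q => Z ⊆ Q).card : ℝ) ≤
          ((Fintype.card V - Z.card).choose (k - Z.card) : ℝ) := by exact_mod_cast h2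
      exact h3.trans (choose_bound hk hV _ hz)
    · have h1 : ∑ Q ∈ powersetCard k (univ : Finset V), ind (Z ⊆ Q) = 0 := by
        refine sum_eq_zero fun Q hQ => ind_false fun hs => ?_
        have h2 := card_le_card hs
        have h3 := (mem_powersetCard.1 hQ).2
        omega
      rw [h1]
      positivity
  · have h1 : powersetCard k (univ : Finset V) = ∅ := by
      rw [powersetCard_eq_empty, card_univ]
      omega
    rw [h1, sum_empty]
    positivity

/-- The bound for the lost cliques at one gate. -/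
theorem gate_pos {l N g k d : ℕ} (hV : 0 < Fintype.card V) (hc : 0 < c) (hg : 1 ≤ g)
    (hN : (l + N) * g ≤ c) {R q : ℝ} (hR : 0 < R) (hq : 1 ≤ q) (hd : (d : ℝ) ≤ q ^ 2)
    (hRN : (2 * l * N : ℝ) * (2 * q) ≤ R) (hx : (k : ℝ) * (c / g * (1 / R)) ≤ 1 / 4)
    (hy : R * (k / Fintype.card V) ≤ 1)
    (A : Fin d → Finset (Finset V)) (hA : ∀ i, Cl (2 * l) N (A i)) (φ : (Fin d → Prop) → Prop)
    (hφ : ∀ x y : Fin d → Prop, (∀ i, x i → y i) → φ x → φ y) (B : Finset (Finset V))
    (hB : ∀ K : Finset V, K.card ≤ 2 * l → cn (fun h : V → Fin c => Inj h K ∧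
      ¬ φ (fun i => AccH l (A i) h) ∧ ¬ Acc B h) ≤ (1 / 2) ^ N * (c : ℝ) ^ Fintype.card V →
        K ∈ B) :
    ∑ Q ∈ powersetCard k (univ : Finset V), ind (φ (fun i => AccQ l (A i) Q) ∧ ¬ AccQ l B Q) ≤
      (R * (k / Fintype.card V)) ^ l * (Fintype.card V).choose k := by
  classical
  set M := Fintype.card V with hM
  set E : Finset (Finset V) := (powersetCard k (univ : Finset V)).filter fun Q =>
    φ (fun i => AccQ l (A i) Q) ∧ ¬ AccQ l B Q with hE
  have hEk : ∀ Q ∈ E, Q.card = k := fun Q hQ =>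
    (mem_powersetCard.1 (mem_filter.1 hQ).1).2
  have hsum : ∑ Q ∈ powersetCard k (univ : Finset V),
      ind (φ (fun i => AccQ l (A i) Q) ∧ ¬ AccQ l B Q) = (E.card : ℝ) := by
    rw [hE, card_filter]
    push_cast
    refine sum_congr rfl fun Q _ => ?_
    by_cases h : φ (fun i => AccQ l (A i) Q) ∧ ¬ AccQ l B Q
    · rw [ind_true h, if_pos h]
    · rw [ind_false h, if_neg h]
  rw [hsum]
  have hy0 : 0 ≤ R * (k / M : ℝ) := by positivity
  by_cases hemp : E = ∅
  · rw [hemp]
    simp only [card_empty, Nat.cast_zero]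
    positivity
  have hE0 : (0 : ℝ) < E.card := by
    exact_mod_cast card_pos.2 (nonempty_iff_ne_empty.2 hemp)
  set T : Finset V → ℝ := fun Z => (∑ Q ∈ E, ind (Z ⊆ Q)) * R ^ Z.card with hT
  obtain ⟨U, -, hmax⟩ := (univ : Finset (Finset V)).exists_max_image T ⟨∅, mem_univ _⟩
  have hTe : T ∅ = E.card := by
    rw [hT]
    simp [ind_true trivial]
  by_cases hUl : l ≤ U.card
  · have h1 : (E.card : ℝ) ≤ T U := hTe ▸ hmax ∅ (mem_univ _)
    have h2 : ∑ Q ∈ E, ind (U ⊆ Q) ≤ ((k : ℝ) / M) ^ U.card * M.choose k :=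
      (sum_le_sum_of_subset_of_nonneg (filter_subset _ _) fun _ _ _ => ind_nonneg _).trans
        (card_super hV U)
    calc (E.card : ℝ) ≤ (∑ Q ∈ E, ind (U ⊆ Q)) * R ^ U.card := h1
      _ ≤ (((k : ℝ) / M) ^ U.card * M.choose k) * R ^ U.card :=
          mul_le_mul_of_nonneg_right h2 (by positivity)
      _ = (R * (k / M)) ^ U.card * M.choose k := by rw [mul_pow]; ring
      _ ≤ (R * (k / M)) ^ l * M.choose k :=
          mul_le_mul_of_nonneg_right (pow_le_pow_of_le_one hy0 hy hUl) (by positivity)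
  · exfalso
    push Not at hUl
    set EU := E.filter fun Q => U ⊆ Q with hEU
    have hEUs : ∑ Q ∈ E, ind (U ⊆ Q) = (EU.card : ℝ) := by
      rw [hEU, card_filter]
      push_cast
      refine sum_congr rfl fun Q _ => ?_
      by_cases h : U ⊆ Q
      · rw [ind_true h, if_pos h]
      · rw [ind_false h, if_neg h]
    have hEU0 : (0 : ℝ) < EU.card := by
      have h1 : (E.card : ℝ) ≤ (∑ Q ∈ E, ind (U ⊆ Q)) * R ^ U.card := hTe ▸ hmax ∅ (mem_univ _)
      rw [hEUs] at h1
      have h2 : 0 < (EU.card : ℝ) * R ^ U.card := hE0.trans_le h1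
      exact pos_of_mul_pos_left h2 (by positivity)
    -- spreadness
    have hspr : ∀ Y : Finset V, Disjoint U Y →
        ∑ Q ∈ EU, ind (Y ⊆ Q) ≤ (1 / R) ^ Y.card * EU.card := by
      intro Y hY
      have h1 := hmax (U ∪ Y) (mem_univ _)
      rw [hT] at h1
      simp only at h1
      rw [card_union_of_disjoint hY, pow_add, hEUs] at h1
      have h2 : ∑ Q ∈ E, ind (U ∪ Y ⊆ Q) = ∑ Q ∈ EU, ind (Y ⊆ Q) := by
        have h2' : ∑ Q ∈ EU, ind (Y ⊆ Q) = ∑ Q ∈ E, if U ⊆ Q then ind (Y ⊆ Q) else 0 :=
          sum_filter _ _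
        rw [h2']
        refine sum_congr rfl fun Q _ => ?_
        by_cases h : U ⊆ Q
        · rw [if_pos h]
          exact ind_congr (by rw [union_subset_iff]; tauto)
        · rw [if_neg h]
          exact ind_false fun h3 => h (union_subset_iff.1 h3).1
      rw [h2] at h1
      have h3 : 0 < R ^ U.card := by positivity
      have h4 : 0 < R ^ Y.card := by positivity
      have h5 : (∑ Q ∈ EU, ind (Y ⊆ Q)) * R ^ Y.card ≤ EU.card := by
        refine le_of_mul_le_mul_right ?_ h3
        linarith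
      rw [one_div, inv_pow, inv_mul_eq_div, le_div_iff₀ h4]
      exact h5
    -- bad sets
    set p : Finset V → Prop := fun Q => ∃ i, ∃ b ∈ Icc 2 l, ∃ Y ∈ Mn (A i) U b, Y ⊆ Q with hp
    set Bad := EU.filter p with hBad
    have hBadle : (Bad.card : ℝ) ≤ EU.card / 2 := by
      have h1 : (Bad.card : ℝ) ≤ ∑ i, ∑ b ∈ Icc 2 l, ∑ Y ∈ Mn (A i) U b,
          ∑ Q ∈ EU, ind (Y ⊆ Q) := by
        have h2 : (Bad.card : ℝ) = ∑ Q ∈ EU, ind (p Q) := by
          rw [hBad, card_filter]
          push_cast
          refine sum_congr rfl fun Q _ => ?_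
          by_cases h : p Q
          · rw [ind_true h, if_pos h]
          · rw [ind_false h, if_neg h]
        rw [h2]
        have h3 : ∑ i, ∑ b ∈ Icc 2 l, ∑ Y ∈ Mn (A i) U b, ∑ Q ∈ EU, ind (Y ⊆ Q) =
            ∑ Q ∈ EU, ∑ i, ∑ b ∈ Icc 2 l, ∑ Y ∈ Mn (A i) U b, ind (Y ⊆ Q) := by
          symm
          rw [sum_comm]
          refine sum_congr rfl fun i _ => ?_
          rw [sum_comm]
          refine sum_congr rfl fun b _ => ?_
          rw [sum_comm]
        rw [h3]
        refine sum_le_sum fun Q _ => ?_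
        by_cases h : p Q
        · rw [ind_true h]
          obtain ⟨i, b, hb, Y, hY, hYQ⟩ := h
          have n1 : ∀ (i : Fin d) (b : ℕ), 0 ≤ ∑ Y ∈ Mn (A i) U b, ind (Y ⊆ Q) :=
            fun i b => sum_nonneg fun _ _ => ind_nonneg _
          have n2 : ∀ i : Fin d, 0 ≤ ∑ b ∈ Icc 2 l, ∑ Y ∈ Mn (A i) U b, ind (Y ⊆ Q) :=
            fun i => sum_nonneg fun b _ => n1 i b
          calc (1 : ℝ) = ind (Y ⊆ Q) := (ind_true hYQ).symm
            _ ≤ ∑ Y ∈ Mn (A i) U b, ind (Y ⊆ Q) :=
                single_le_sum (f := fun Y => ind (Y ⊆ Q)) (fun _ _ => ind_nonneg _) hY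
            _ ≤ ∑ b ∈ Icc 2 l, ∑ Y ∈ Mn (A i) U b, ind (Y ⊆ Q) :=
                single_le_sum (f := fun b => ∑ Y ∈ Mn (A i) U b, ind (Y ⊆ Q))
                  (fun b _ => n1 i b) hb
            _ ≤ _ := single_le_sum (f := fun i => ∑ b ∈ Icc 2 l, ∑ Y ∈ Mn (A i) U b,
                ind (Y ⊆ Q)) (fun i _ => n2 i) (mem_univ i)
        · rw [ind_false h]
          exact sum_nonneg fun i _ => sum_nonneg fun b _ => sum_nonneg fun _ _ => ind_nonneg _
      set t : ℝ := 2 * l * N / R with ht
      have ht0 : 0 ≤ t := by positivity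
      have htq : t * (2 * q) ≤ 1 := by
        rw [ht, div_mul_eq_mul_div, div_le_one hR]
        exact hRN
      have ht2 : t ≤ 1 / 2 := by nlinarith
      have h4 : ∀ i : Fin d, ∑ b ∈ Icc 2 l, ∑ Y ∈ Mn (A i) U b, ∑ Q ∈ EU, ind (Y ⊆ Q) ≤
          2 * t ^ 2 * EU.card := by
        intro i
        have h5 : ∀ b ∈ Icc 2 l, ∑ Y ∈ Mn (A i) U b, ∑ Q ∈ EU, ind (Y ⊆ Q) ≤
            t ^ b * EU.card := by
          intro b hb
          have hb' := mem_Icc.1 hb
          have h6 : ∀ Y ∈ Mn (A i) U b, ∑ Q ∈ EU, ind (Y ⊆ Q) ≤ (1 / R) ^ b * EU.card := by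
            intro Y hY
            have h7 := mem_Mn.1 hY
            have h8 := hspr Y h7.2.1
            rwa [h7.1] at h8
          refine (sum_le_card_nsmul _ _ _ h6).trans ?_
          rw [nsmul_eq_mul]
          have h9 := card_Mn (hA i) b U (by omega)
          have h10 : ((Mn (A i) U b).card : ℝ) ≤ (2 * l * N) ^ b := by exact_mod_cast h9
          calc ((Mn (A i) U b).card : ℝ) * ((1 / R) ^ b * EU.card)
              ≤ (2 * l * N) ^ b * ((1 / R) ^ b * EU.card) :=
                mul_le_mul_of_nonneg_right h10 (by positivity)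
            _ = t ^ b * EU.card := by rw [ht, div_pow, div_pow, one_pow]; ring
        refine (sum_le_sum h5).trans ?_
        rw [← sum_mul]
        refine mul_le_mul_of_nonneg_right ?_ hEU0.le
        have h11 : ∀ n : ℕ, ∑ b ∈ Icc 2 (n + 1), t ^ b ≤ 2 * t ^ 2 - 2 * t ^ (n + 2) := by
          intro n
          induction n with
          | zero => simp
          | succ n ihn =>
            rw [sum_Icc_succ_top (by omega)]
            have h12 : t ^ (n + 1 + 2) = t ^ (n + 1 + 1) * t := by ring
            have h13 : t ^ (n + 2) = t ^ (n + 1 + 1) := by ring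
            have h14 : 0 ≤ t ^ (n + 1 + 1) := by positivity
            rw [h12]
            rw [h13] at ihn
            nlinarith
        rcases Nat.eq_zero_or_pos l with h | h
        · rw [h]
          simp
          positivity
        · obtain ⟨n, hn⟩ : ∃ n, l = n + 1 := ⟨l - 1, by omega⟩
          rw [hn]
          refine (h11 n).trans ?_
          have : 0 ≤ t ^ (n + 2) := by positivity
          linarith
      refine h1.trans ((sum_le_sum fun i _ => h4 i).trans ?_)
      rw [sum_const, card_univ, Fintype.card_fin, nsmul_eq_mul]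
      have h15 : (d : ℝ) * (2 * t ^ 2) ≤ 1 / 2 := by
        have h16 : t ^ 2 * (4 * q ^ 2) ≤ 1 := by
          have : t ^ 2 * (4 * q ^ 2) = (t * (2 * q)) ^ 2 := by ring
          rw [this]
          exact pow_le_one₀ (by positivity) htq
        have h17 : (d : ℝ) * t ^ 2 ≤ q ^ 2 * t ^ 2 :=
          mul_le_mul_of_nonneg_right hd (by positivity)
        nlinarith
      calc (d : ℝ) * (2 * t ^ 2 * (EU.card : ℝ)) = (d : ℝ) * (2 * t ^ 2) * (EU.card : ℝ) := by ring
        _ ≤ 1 / 2 * (EU.card : ℝ) := mul_le_mul_of_nonneg_right h15 hEU0.le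
        _ = (EU.card : ℝ) / 2 := by ring
    set E' := EU \ Bad with hE'
    have hE'c : (EU.card : ℝ) ≤ 2 * E'.card := by
      have h1 : E'.card + Bad.card = EU.card :=
        card_sdiff_add_card_eq_card (filter_subset _ _)
      have h2 : (E'.card : ℝ) + Bad.card = EU.card := by exact_mod_cast h1
      linarith
    have hE'0 : E'.Nonempty := by
      rw [← card_pos]
      by_contra h
      have h1 : E'.card = 0 := by omega
      rw [h1] at hE'c
      simp only [Nat.cast_zero, mul_zero] at hE'c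
      linarith
    have hE'E : ∀ Q ∈ E', Q ∈ E ∧ U ⊆ Q := fun Q hQ =>
      ⟨(mem_filter.1 (mem_sdiff.1 hQ).1).1, (mem_filter.1 (mem_sdiff.1 hQ).1).2⟩
    have hspread := spread (c := c) (l := l) (N := N) (k := k) hc hg hN hR hUl.le hE'0
      (fun Q hQ => ⟨(hE'E Q hQ).2, hEk Q (hE'E Q hQ).1⟩) (by
        intro Z hZ
        by_cases hdis : Disjoint U Z
        · have h1 : ∑ Q ∈ E', ind (Z ⊆ Q \ U) ≤ ∑ Q ∈ EU, ind (Z ⊆ Q) := by
            refine (sum_le_sum fun Q _ => ind_mono fun hs => hs.trans sdiff_subset).trans ?_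
            exact sum_le_sum_of_subset_of_nonneg sdiff_subset fun _ _ _ => ind_nonneg _
          refine h1.trans ((hspr Z hdis).trans ?_)
          have h2 : 0 ≤ (1 / R) ^ Z.card := by positivity
          nlinarith
        · have h1 : ∑ Q ∈ E', ind (Z ⊆ Q \ U) = 0 := by
            refine sum_eq_zero fun Q _ => ind_false fun hs => hdis ?_
            rw [Finset.disjoint_left]
            intro v hv hv'
            exact (mem_sdiff.1 (hs hv')).2 hv
          rw [h1]
          positivity) hx
    have hUB : U ∈ B := by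
      refine hB U (by omega) (le_trans (cn_mono ?_) hspread)
      rintro h ⟨hi, hn, _⟩ Q hQ
      by_contra hno
      push Not at hno
      refine hn (hφ _ _ ?_ (mem_filter.1 (hE'E Q hQ).1).2.1)
      rintro i ⟨K, hK, hKl, hKQ⟩
      -- U ∪ K ∈ A i
      have h1 : U ∪ K \ U ∈ A i := by
        rw [union_sdiff_self_eq_union]
        refine (hA i).up K hK _ subset_union_right ?_
        have := card_union_le U K
        omega
      obtain ⟨Z, hZ, hZm⟩ := exists_min disjoint_sdiff h1
      have hZK : Z ⊆ K := hZ.trans sdiff_subset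
      have hZc : Z.card < 2 := by
        by_contra h2
        push Not at h2
        have h3 : Q ∈ Bad := by
          refine mem_filter.2 ⟨(mem_sdiff.1 hQ).1, i, Z.card, mem_Icc.2 ⟨h2, ?_⟩, Z, hZm,
            hZK.trans hKQ⟩
          exact (card_le_card hZK).trans hKl
        exact (mem_sdiff.1 hQ).2 h3
      refine ⟨U ∪ Z, (mem_Mn.1 hZm).2.2.1, ?_, ?_⟩
      · have := card_union_le U Z
        omega
      · rcases Nat.eq_zero_or_pos Z.card with h0 | h0
        · rw [card_eq_zero.1 h0, union_empty]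
          exact hi
        · have h3 : Z.card = 1 := by omega
          obtain ⟨v, hv⟩ := card_eq_one.1 h3
          have hvZ : v ∈ Z := by rw [hv]; exact mem_singleton_self v
          have hvU : v ∉ U := (mem_sdiff.1 (hZ hvZ)).2
          have hvQ : v ∈ Q \ U := mem_sdiff.2 ⟨hKQ (hZK hvZ), hvU⟩
          have h4 : U ∪ Z = insert v U := by
            rw [hv, union_comm]
            rfl
          rw [h4, Inj.insert hvU]
          exact ⟨hi, hno v hvQ⟩
    obtain ⟨Q, hQ⟩ := hE'0
    exact (mem_filter.1 (hE'E Q hQ).1).2.2 ⟨U, hUB, hUl.le, (hE'E Q hQ).2⟩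

end Pool.Agent.helper33.Mod
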