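import Pool.Agent.helper33.Mod.Defs
import Pool.Agent.helper33.Mod.Gate

/-!
# Approximation of circuits with arbitrary monotone gates
-/

namespace Pool.Agent.helper33.Mod

set_option linter.unusedSectionVars false

open Finset

/-- The graph of a clique. -/
def gQ {M : ℕ} (Q : Finset (Fin M)) : Fin (M * M) → Bool := fun i =>
  decide ((finProdFinEquiv.symm i).1 ∈ Q ∧ (finProdFinEquiv.symm i).2 ∈ Q ∧
    (finProdFinEquiv.symm i).1 ≠ (finProdFinEquiv.symm i).2)

/-- The complete multipartite graph of a colouring. -/
def gH {M c : ℕ} (h : Fin M → Fin c) : Fin (M * M) → Bool := fun i =>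
  decide (h (finProdFinEquiv.symm i).1 ≠ h (finProdFinEquiv.symm i).2)

theorem clique_gQ {M k : ℕ} {Q : Finset (Fin M)} (hQ : Q.card = k) : Clique M k (gQ Q) := by
  refine ⟨Q, hQ, fun u hu v hv huv => ?_⟩
  unfold gQ
  rw [Equiv.symm_apply_apply]
  simp [hu, hv, huv.ne]

theorem not_clique_gH {M k : ℕ} (hk : 1 ≤ k) (h : Fin M → Fin (k - 1)) :
    ¬ Clique M k (gH h) := by
  classical
  rintro ⟨S, hS, hc⟩
  have hne : ∀ u ∈ S, ∀ v ∈ S, u < v → h u ≠ h v := by
    intro u hu v hv huv
    have h1 := hc u hu v hv huv
    unfold gH at h1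
    rw [Equiv.symm_apply_apply] at h1
    simpa using h1
  have hinj : Set.InjOn h S := by
    intro u hu v hv he
    rcases lt_trichotomy u v with h1 | h1 | h1
    · exact absurd he (hne u hu v hv h1)
    · exact h1
    · exact absurd he.symm (hne v hv u hu h1)
  have h2 : S.card ≤ (univ : Finset (Fin (k - 1))).card :=
    card_le_card_of_injOn h (fun _ _ => mem_coe.2 (mem_univ _)) hinj
  rw [card_univ, Fintype.card_fin] at h2
  omega

/-- The number of small sets. -/
theorem card_small {V : Type} [Fintype V] [DecidableEq V] (L : ℕ) :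
    (univ.filter fun K : Finset V => K.card ≤ L).card ≤ (Fintype.card V + 1) ^ L := by
  classical
  induction L with
  | zero =>
    rw [pow_zero]
    refine (card_le_card (t := {∅}) ?_).trans (by simp)
    intro K hK
    have h := (mem_filter.1 hK).2
    have h1 : K = ∅ := card_eq_zero.1 (by omega)
    simp [h1]
  | succ L ih =>
    have h1 : (univ.filter fun K : Finset V => K.card ≤ L + 1) ⊆
        ((univ.filter fun K : Finset V => K.card ≤ L) ×ˢ (univ : Finset (Option V))).image
          fun p => p.2.elim p.1 (fun v => insert v p.1) := by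
      intro K hK
      have h := (mem_filter.1 hK).2
      by_cases h2 : K.card ≤ L
      · exact mem_image.2 ⟨(K, none), mem_product.2 ⟨mem_filter.2 ⟨mem_univ _, h2⟩,
          mem_univ _⟩, rfl⟩
      · have h3 : 0 < K.card := by omega
        obtain ⟨v, hv⟩ := card_pos.1 h3
        refine mem_image.2 ⟨(K.erase v, some v), mem_product.2 ⟨mem_filter.2 ⟨mem_univ _, ?_⟩,
          mem_univ _⟩, ?_⟩
        · rw [card_erase_of_mem hv]
          omega
        · exact insert_erase hv
    refine (card_le_card h1).trans (card_image_le.trans ?_)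
    rw [card_product, card_univ, Fintype.card_option, pow_succ]
    exact Nat.mul_le_mul_right _ ih

section

variable {M l N g k c : ℕ}

/-- The families of the inputs. -/
def baseF (l : ℕ) (i : Fin (M * M)) : Finset (Finset (Fin M)) :=
  if (finProdFinEquiv.symm i).1 ≠ (finProdFinEquiv.symm i).2 then
    univ.filter fun K : Finset (Fin M) => (finProdFinEquiv.symm i).1 ∈ K ∧
      (finProdFinEquiv.symm i).2 ∈ K ∧ K.card ≤ 2 * l else ∅

theorem baseF_cl (hN2 : 2 ≤ N) (i : Fin (M * M)) : Cl (2 * l) N (baseF l i) := by
  unfold baseF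
  split_ifs
  · exact Cl.edge hN2 _ _
  · exact Cl.empty (by omega)

theorem baseF_pos (hl : 2 ≤ l) {Q : Finset (Fin M)} {i : Fin (M * M)} (hi' : gQ Q i = true) :
    AccQ l (baseF l i) Q := by
  unfold gQ at hi'
  rw [decide_eq_true_eq] at hi'
  unfold baseF
  rw [if_pos hi'.2.2]
  refine ⟨{(finProdFinEquiv.symm i).1, (finProdFinEquiv.symm i).2},
    mem_filter.2 ⟨mem_univ _, by simp, by simp, ?_⟩, ?_, ?_⟩
  · exact (card_le_two).trans (by omega)
  · exact (card_le_two).trans hl
  · intro w hw
    rw [mem_insert, mem_singleton] at hw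
    rcases hw with rfl | rfl
    · exact hi'.1
    · exact hi'.2.1

theorem baseF_neg {h : Fin M → Fin c} {i : Fin (M * M)} (ha : AccH l (baseF l i) h) :
    gH h i = true := by
  obtain ⟨K, hK, hKl, hi⟩ := ha
  by_contra hv'
  unfold gH at hv'
  rw [decide_eq_true_eq, not_not] at hv'
  unfold baseF at hK
  by_cases hne : (finProdFinEquiv.symm i).1 ≠ (finProdFinEquiv.symm i).2
  · rw [if_pos hne] at hK
    have h2 := (mem_filter.1 hK).2
    exact hne (hi (by exact_mod_cast h2.1) (by exact_mod_cast h2.2.1) hv')
  · rw [if_neg hne] at hK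
    exact absurd hK (notMem_empty _)

/-- The approximation of a circuit. -/
theorem approx (hM : 0 < M) (hl : 2 ≤ l) (hN2 : 2 ≤ N) (hc : 0 < c) (hlc : (2 * l) ^ 2 ≤ c)
    (hg : 1 ≤ g) (hN : (l + N) * g ≤ c) {R q : ℝ} (hR : 0 < R) (hq : 1 ≤ q) {m : ℕ}
    (hd : (m : ℝ) ≤ q ^ 2) (hRN : (2 * l * N : ℝ) * (2 * q) ≤ R)
    (hx : (k : ℝ) * (c / g * (1 / R)) ≤ 1 / 4) (hy : R * (k / M) ≤ 1) {s : ℕ}
    (C : MCircuit m (M * M) s) :
    ∃ F : Fin (M * M + s) → Finset (Finset (Fin M)), (∀ i, Cl (2 * l) N (F i)) ∧
      ∑ Q ∈ powersetCard k (univ : Finset (Fin M)),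
        ind (∃ i, C.val (gQ Q) i = true ∧ ¬ AccQ l (F i) Q) ≤
          s * ((R * (k / M)) ^ l * M.choose k) ∧
      cn (fun h : Fin M → Fin c => ∃ i, AccH l (F i) h ∧ C.val (gH h) i = false) ≤
        s * ((M + 1 : ℝ) ^ (2 * l) * ((1 / 2) ^ N * (c : ℝ) ^ M)) := by
  classical
  induction C with
  | nil =>
    refine ⟨baseF l, fun i => baseF_cl hN2 i, ?_, ?_⟩
    · have h1 : ∀ Q : Finset (Fin M), ¬ ∃ i, (MCircuit.nil (m := m) (n := M * M)).val (gQ Q) i =
          true ∧ ¬ AccQ l (baseF l i) Q := by
        rintro Q ⟨i, hi, hn⟩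
        exact hn (baseF_pos hl hi)
      rw [sum_eq_zero fun Q _ => ind_false (h1 Q)]
      simp
    · have h1 : ∀ h : Fin M → Fin c, ¬ ∃ i, AccH l (baseF l i) h ∧
          (MCircuit.nil (m := m) (n := M * M)).val (gH h) i = false := by
        rintro h ⟨i, hi, hv⟩
        have h2 : gH h i = false := hv
        rw [baseF_neg hi] at h2
        exact absurd h2 (by decide)
      refine le_trans (le_of_eq (sum_eq_zero fun h _ => ind_false (h1 h))) ?_
      positivity
  | @snoc s d C hdm w φ hφ ih =>
    obtain ⟨F, hF, hpos, hneg⟩ := ih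
    -- the new family
    set Φ : (Fin M → Fin c) → Prop := fun h => φ (fun j => decide (AccH l (F (w j)) h)) = true
      with hΦ
    obtain ⟨B, hB1, hB2, hB3⟩ := exists_closure (V := Fin M) (c := c) (2 * l) Φ
      ((1 / 2) ^ N * (c : ℝ) ^ Fintype.card (Fin M))
    have hBcl : Cl (2 * l) N B := closure_cl hc hlc hB1 hB3
    set F' : Fin (M * M + s + 1) → Finset (Finset (Fin M)) :=
      Fin.snoc (α := fun _ => Finset (Finset (Fin M))) F B with hF'
    have hF'1 : F' (Fin.last (M * M + s)) = B := by rw [hF', Fin.snoc_last]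
    have hF'2 : ∀ j, F' (Fin.castSucc j) = F j := fun j => by rw [hF', Fin.snoc_castSucc]
    have hv1 : ∀ x, (MCircuit.snoc C hdm w φ hφ).val x (Fin.last (M * M + s)) =
        φ fun j => C.val x (w j) := by
      intro x
      have h1 : (MCircuit.snoc C hdm w φ hφ).val x = Fin.snoc (α := fun _ => Bool) (C.val x)
        (φ fun j => C.val x (w j)) := rfl
      rw [h1]
      exact Fin.snoc_last _ _
    have hv2 : ∀ x j, (MCircuit.snoc C hdm w φ hφ).val x (Fin.castSucc j) = C.val x j := by
      intro x j
      have h1 : (MCircuit.snoc C hdm w φ hφ).val x = Fin.snoc (α := fun _ => Bool) (C.val x)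
        (φ fun j => C.val x (w j)) := rfl
      rw [h1]
      exact Fin.snoc_castSucc _ _ _
    refine ⟨F', ?_, ?_, ?_⟩
    · intro i
      refine Fin.lastCases (n := M * M + s) ?_ (fun j => ?_) i
      · rw [hF'1]; exact hBcl
      · rw [hF'2]; exact hF j
    · -- positive errors
      have hgate := gate_pos (V := Fin M) (c := c) (l := l) (N := N) (g := g) (k := k) (d := d)
        (by rw [Fintype.card_fin]; exact hM) hc hg hN hR hq
        ((by exact_mod_cast hdm : (d : ℝ) ≤ m).trans hd) hRN hx
        (by rw [Fintype.card_fin]; exact hy) (fun j => F (w j)) (fun j => hF (w j))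
        (fun x => φ (fun j => decide (x j)) = true) (by
          intro x y hxy hx'
          have h1 : (fun j => decide (x j)) ≤ fun j => decide (y j) := by
            intro j
            by_cases h : x j
            · simp [h, hxy j h]
            · simp [h]
          have h2 := hφ h1
          rw [hx'] at h2
          exact top_le_iff.1 h2) B hB3
      rw [Fintype.card_fin] at hgate
      have h1 : ∀ Q ∈ powersetCard k (univ : Finset (Fin M)),
          ind (∃ i, (MCircuit.snoc C hdm w φ hφ).val (gQ Q) i = true ∧ ¬ AccQ l (F' i) Q) ≤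
          ind (∃ i, C.val (gQ Q) i = true ∧ ¬ AccQ l (F i) Q) +
            ind ((fun x : Fin d → Prop => φ (fun j => decide (x j)) = true)
              (fun i => AccQ l (F (w i)) Q) ∧ ¬ AccQ l B Q) := by
        intro Q _
        by_cases h : ∃ i, C.val (gQ Q) i = true ∧ ¬ AccQ l (F i) Q
        · rw [ind_true h]
          have := ind_le_one (∃ i, (MCircuit.snoc C hdm w φ hφ).val (gQ Q) i = true ∧
            ¬ AccQ l (F' i) Q)
          have h2 := ind_nonneg ((fun x : Fin d → Prop => φ (fun j => decide (x j)) = true)
              (fun i => AccQ l (F (w i)) Q) ∧ ¬ AccQ l B Q)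
          linarith
        · rw [ind_false h, zero_add]
          refine ind_mono ?_
          rintro ⟨i, hi, hn⟩
          push Not at h
          revert hi hn
          refine Fin.lastCases (n := M * M + s) ?_ (fun j => ?_) i
          · intro hi hn
            rw [hv1] at hi
            rw [hF'1] at hn
            refine ⟨?_, hn⟩
            have h1 : (fun j => C.val (gQ Q) (w j)) ≤ fun j => decide (AccQ l (F (w j)) Q) := by
              intro j
              by_cases h2 : C.val (gQ Q) (w j) = true
              · simp [h (w j) h2]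
              · rw [Bool.not_eq_true] at h2
                show C.val (gQ Q) (w j) ≤ decide (AccQ l (F (w j)) Q)
                rw [h2]
                exact Bool.false_le _
            have h2 := hφ h1
            rw [hi] at h2
            exact top_le_iff.1 h2
          · intro hi hn
            rw [hv2] at hi
            rw [hF'2] at hn
            exact absurd (h j hi) hn
      refine (sum_le_sum h1).trans ?_
      rw [sum_add_distrib]
      push_cast
      linarith
    · -- negative errors
      have h1 : cn (fun h : Fin M → Fin c => ∃ i, AccH l (F' i) h ∧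
            (MCircuit.snoc C hdm w φ hφ).val (gH h) i = false) ≤
          cn (fun h : Fin M → Fin c => (∃ i, AccH l (F i) h ∧ C.val (gH h) i = false) ∨
            (Acc B h ∧ ¬ Φ h)) := by
        refine cn_mono fun h => ?_
        rintro ⟨i, hi, hn⟩
        by_cases he : ∃ i, AccH l (F i) h ∧ C.val (gH h) i = false
        · exact Or.inl he
        · right
          push Not at he
          revert hi hn
          refine Fin.lastCases (n := M * M + s) ?_ (fun j => ?_) i
          · intro hi hn
            rw [hv1] at hn
            rw [hF'1] at hi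
            obtain ⟨K, hK, hKl, hKi⟩ := hi
            refine ⟨⟨K, hK, hKi⟩, fun hΦh => ?_⟩
            have h1 : (fun j => decide (AccH l (F (w j)) h)) ≤ fun j => C.val (gH h) (w j) := by
              intro j
              by_cases h2 : AccH l (F (w j)) h
              · have h3 := he (w j) h2
                simp only [ne_eq, Bool.not_eq_false] at h3
                simp [h2, h3]
              · simp [h2]
            have h2 := hφ h1
            have h3 : φ (fun j => decide (AccH l (F (w j)) h)) = true := hΦh
            rw [h3, hn] at h2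
            exact absurd h2 (by decide)
          · intro hi hn
            rw [hv2] at hn
            rw [hF'2] at hi
            exact absurd hn (he j hi)
      refine h1.trans ((cn_or _ _).trans ?_)
      have h2 : (B.card : ℝ) ≤ (M + 1 : ℝ) ^ (2 * l) := by
        have h3 : B ⊆ univ.filter fun K : Finset (Fin M) => K.card ≤ 2 * l :=
          fun K hK => mem_filter.2 ⟨mem_univ _, hB1 K hK⟩
        have h4 := (card_le_card h3).trans (card_small (2 * l))
        rw [Fintype.card_fin] at h4
        exact_mod_cast h4
      rw [Fintype.card_fin] at hB2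
      have h5 : (B.card : ℝ) * ((1 / 2) ^ N * (c : ℝ) ^ M) ≤
          (M + 1 : ℝ) ^ (2 * l) * ((1 / 2) ^ N * (c : ℝ) ^ M) :=
        mul_le_mul_of_nonneg_right h2 (by positivity)
      push_cast
      linarith

end

end Pool.Agent.helper33.Mod
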