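import Pool.Agent.helper33.Mod.Col

/-!
# Closed families of small vertex sets
-/

namespace Pool.Agent.helper33.Mod

set_option linter.unusedSectionVars false

open Finset

variable {V : Type} [Fintype V] [DecidableEq V] {c : ℕ}

/-- `A` is a closed family of sets with at most `L` elements: closed under small supersets, and if
a small set `U` has `N` pairwise disjoint extensions in `A` then it lies in `A`. -/
structure Cl (L N : ℕ) (A : Finset (Finset V)) : Prop where
  le : ∀ K ∈ A, K.card ≤ L
  up : ∀ K ∈ A, ∀ K' : Finset V, K ⊆ K' → K'.card ≤ L → K' ∈ A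
  dj : ∀ (U : Finset V) (D : Finset (Finset V)), U.card ≤ L → N ≤ D.card →
    (∀ Y ∈ D, Disjoint U Y ∧ U ∪ Y ∈ A) →
      (∀ Y ∈ D, ∀ Y' ∈ D, Y ≠ Y' → Disjoint Y Y') → U ∈ A

/-- The family of the supersets of an edge is closed. -/
theorem Cl.edge {L N : ℕ} (hN : 2 ≤ N) (u v : V) :
    Cl L N (univ.filter fun K : Finset V => u ∈ K ∧ v ∈ K ∧ K.card ≤ L) := by
  classical
  refine ⟨fun K hK => (mem_filter.1 hK).2.2.2, fun K hK K' hs hc => ?_, ?_⟩
  · have h := (mem_filter.1 hK).2
    exact mem_filter.2 ⟨mem_univ _, hs h.1, hs h.2.1, hc⟩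
  · intro U D hU hD hY hdis
    have h1 : 1 < D.card := by omega
    obtain ⟨Y, hYD, Y', hYD', hne⟩ := Finset.one_lt_card.1 h1
    have h2 := (mem_filter.1 (hY Y hYD).2).2
    have h3 := (mem_filter.1 (hY Y' hYD').2).2
    have hd := hdis Y hYD Y' hYD' hne
    refine mem_filter.2 ⟨mem_univ _, ?_, ?_, hU⟩
    · rcases mem_union.1 h2.1 with h | h
      · exact h
      · rcases mem_union.1 h3.1 with h' | h'
        · exact h'
        · exact absurd h' (Finset.disjoint_left.1 hd h)
    · rcases mem_union.1 h2.2.1 with h | h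
      · exact h
      · rcases mem_union.1 h3.2.1 with h' | h'
        · exact h'
        · exact absurd h' (Finset.disjoint_left.1 hd h)

theorem Cl.empty {L N : ℕ} (hN : 1 ≤ N) : Cl L N (∅ : Finset (Finset V)) := by
  refine ⟨by simp, by simp, ?_⟩
  intro U D _ hD hY _
  have h1 : 0 < D.card := by omega
  obtain ⟨Y, hYD⟩ := Finset.card_pos.1 h1
  exact absurd (hY Y hYD).2 (notMem_empty _)

/-- Acceptance of a colouring. -/
def Acc (A : Finset (Finset V)) (h : V → Fin c) : Prop := ∃ K ∈ A, Inj h K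

/-- Existence of the closure of a predicate. -/
theorem exists_closure (L : ℕ) (Φ : (V → Fin c) → Prop) (η : ℝ) :
    ∃ B : Finset (Finset V), (∀ K ∈ B, K.card ≤ L) ∧
      cn (fun h => Acc B h ∧ ¬ Φ h) ≤ B.card * η ∧
      ∀ K : Finset V, K.card ≤ L → cn (fun h => Inj h K ∧ ¬ Φ h ∧ ¬ Acc B h) ≤ η → K ∈ B := by
  classical
  set S : Finset (Finset (Finset V)) := univ.filter fun B =>
    (∀ K ∈ B, K.card ≤ L) ∧ cn (fun h : V → Fin c => Acc B h ∧ ¬ Φ h) ≤ B.card * η with hS
  have hne : S.Nonempty := by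
    refine ⟨∅, mem_filter.2 ⟨mem_univ _, by simp, ?_⟩⟩
    have h1 : cn (fun h : V → Fin c => Acc ∅ h ∧ ¬ Φ h) = 0 := by
      unfold cn
      refine sum_eq_zero fun h _ => ind_false ?_
      rintro ⟨⟨K, hK, _⟩, _⟩
      exact absurd hK (notMem_empty _)
    rw [h1]
    simp
  obtain ⟨B, hB, hmax⟩ := S.exists_max_image (fun B => B.card) hne
  have hB' := (mem_filter.1 hB).2
  refine ⟨B, hB'.1, hB'.2, fun K hK hle => ?_⟩
  by_contra hKB
  have h2 : insert K B ∈ S := by
    refine mem_filter.2 ⟨mem_univ _, ?_, ?_⟩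
    · intro K' hK'
      rcases mem_insert.1 hK' with rfl | h
      · exact hK
      · exact hB'.1 K' h
    · rw [card_insert_of_notMem hKB]
      have h3 : cn (fun h : V → Fin c => Acc (insert K B) h ∧ ¬ Φ h) ≤
          cn (fun h : V → Fin c => (Acc B h ∧ ¬ Φ h) ∨ (Inj h K ∧ ¬ Φ h ∧ ¬ Acc B h)) := by
        refine cn_mono fun h => ?_
        rintro ⟨⟨K', hK', hi⟩, hn⟩
        by_cases ha : Acc B h
        · exact Or.inl ⟨ha, hn⟩
        · right
          rcases mem_insert.1 hK' with rfl | h'
          · exact ⟨hi, hn, ha⟩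
          · exact absurd ⟨K', h', hi⟩ ha
      refine (h3.trans (cn_or _ _)).trans ?_
      push_cast
      linarith [hB'.2]
  have h3 := hmax _ h2
  rw [card_insert_of_notMem hKB] at h3
  omega

/-- A closure is a closed family. -/
theorem closure_cl {L N : ℕ} (hc : 0 < c) (hL : L ^ 2 ≤ c) {Φ : (V → Fin c) → Prop}
    {B : Finset (Finset V)} (h1 : ∀ K ∈ B, K.card ≤ L)
    (h2 : ∀ K : Finset V, K.card ≤ L → cn (fun h : V → Fin c => Inj h K ∧ ¬ Φ h ∧ ¬ Acc B h) ≤
      (1 / 2) ^ N * (c : ℝ) ^ Fintype.card V → K ∈ B) : Cl L N B := by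
  have hcR : (0 : ℝ) < c := by exact_mod_cast hc
  refine ⟨h1, fun K hK K' hs hc' => h2 K' hc' ?_, ?_⟩
  · have h3 : cn (fun h : V → Fin c => Inj h K' ∧ ¬ Φ h ∧ ¬ Acc B h) = 0 := by
      unfold cn
      refine sum_eq_zero fun h _ => ind_false ?_
      rintro ⟨hi, _, hn⟩
      exact hn ⟨K, hK, hi.mono hs⟩
    rw [h3]
    positivity
  · intro U D hU hD hY hdis
    refine h2 U hU ?_
    have h3 := disjoint_fail hc U D (fun Y hYD => (hY Y hYD).1)
      (fun Y hYD => (Nat.pow_le_pow_left (h1 _ (hY Y hYD).2) 2).trans hL) hdis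
    refine (le_trans (cn_mono ?_) h3).trans ?_
    · rintro h ⟨hi, _, hn⟩
      exact ⟨hi, fun Y hYD hi' => hn ⟨_, (hY Y hYD).2, hi'⟩⟩
    · refine mul_le_mul_of_nonneg_right ?_ (by positivity)
      exact pow_le_pow_of_le_one (by norm_num) (by norm_num) hD

/-- The minimal extensions with `b` elements of `U` to a member of `A`. -/
def Mn (A : Finset (Finset V)) (U : Finset V) (b : ℕ) : Finset (Finset V) :=
  univ.filter fun Y => Y.card = b ∧ Disjoint U Y ∧ U ∪ Y ∈ A ∧ ∀ Z, Z ⊂ Y → U ∪ Z ∉ A

theorem mem_Mn {A : Finset (Finset V)} {U : Finset V} {b : ℕ} {Y : Finset V} :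
    Y ∈ Mn A U b ↔ Y.card = b ∧ Disjoint U Y ∧ U ∪ Y ∈ A ∧ ∀ Z, Z ⊂ Y → U ∪ Z ∉ A := by
  unfold Mn
  simp

/-- Every extension contains a minimal one. -/
theorem exists_min {A : Finset (Finset V)} {U Y : Finset V} (hd : Disjoint U Y)
    (hY : U ∪ Y ∈ A) : ∃ Z, Z ⊆ Y ∧ Z ∈ Mn A U Z.card := by
  classical
  induction Y using Finset.strongInduction with
  | H Y ih =>
    by_cases h : ∃ Z, Z ⊂ Y ∧ U ∪ Z ∈ A
    · obtain ⟨Z, hZ, hA⟩ := h
      obtain ⟨W, hW, hW'⟩ := ih Z hZ (hd.mono_right hZ.1) hA
      exact ⟨W, hW.trans hZ.1, hW'⟩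
    · push Not at h
      exact ⟨Y, Subset.refl _, mem_Mn.2 ⟨rfl, hd, hY, h⟩⟩

/-- The number of minimal extensions. -/
theorem card_Mn {L N : ℕ} {A : Finset (Finset V)} (hA : Cl L N A) (b : ℕ) :
    ∀ U : Finset V, U.card + b ≤ L → (Mn A U b).card ≤ (L * N) ^ b := by
  classical
  induction b with
  | zero =>
    intro U _
    rw [pow_zero]
    refine (card_le_card (t := {∅}) ?_).trans (by simp)
    intro Y hY
    have h := (mem_Mn.1 hY).1
    rw [Finset.card_eq_zero] at h
    simp [h]
  | succ b ih =>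
    intro U hU
    -- a maximal disjoint family
    set S : Finset (Finset (Finset V)) := (Mn A U (b + 1)).powerset.filter fun D =>
      ∀ Y ∈ D, ∀ Y' ∈ D, Y ≠ Y' → Disjoint Y Y' with hS
    have hne : S.Nonempty := ⟨∅, by simp [hS]⟩
    obtain ⟨D, hD, hmax⟩ := S.exists_max_image (fun D => D.card) hne
    have hDs : D ⊆ Mn A U (b + 1) := mem_powerset.1 (mem_filter.1 hD).1
    have hDd := (mem_filter.1 hD).2
    by_cases hemp : Mn A U (b + 1) = ∅
    · rw [hemp]; simp
    obtain ⟨Y0, hY0⟩ := Finset.nonempty_iff_ne_empty.2 hemp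
    have hUA : U ∉ A := by
      have h := mem_Mn.1 hY0
      have h1 := h.2.2.2 ∅ (by
        rw [Finset.ssubset_iff_subset_ne]
        refine ⟨empty_subset _, ?_⟩
        rintro rfl
        simp at h)
      simpa using h1
    have hDN : D.card < N := by
      by_contra hge
      push Not at hge
      refine hUA (hA.dj U D (by omega) hge (fun Y hY => ?_) hDd)
      have h := mem_Mn.1 (hDs hY)
      exact ⟨h.2.1, h.2.2.1⟩
    set X := D.biUnion id with hX
    have hXc : X.card ≤ L * N := by
      refine (card_biUnion_le).trans ?_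
      have h1 : ∀ Y ∈ D, (id Y).card ≤ L := by
        intro Y hY
        have h := mem_Mn.1 (hDs hY)
        simp only [id]
        omega
      refine (sum_le_card_nsmul D _ L h1).trans ?_
      rw [smul_eq_mul, mul_comm]
      exact Nat.mul_le_mul_left _ hDN.le
    -- every minimal extension meets X
    have hmeet : ∀ Y ∈ Mn A U (b + 1), ∃ v ∈ X, v ∈ Y := by
      intro Y hY
      by_contra hno
      push Not at hno
      have hYD : Y ∉ D := by
        intro h
        have hYc := (mem_Mn.1 hY).1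
        have : Y.Nonempty := Finset.card_pos.1 (by omega)
        obtain ⟨v, hv⟩ := this
        exact hno v (mem_biUnion.2 ⟨Y, h, hv⟩) hv
      have h1 : insert Y D ∈ S := by
        refine mem_filter.2 ⟨mem_powerset.2 (insert_subset hY hDs), ?_⟩
        intro Z hZ Z' hZ' hne'
        have hkey : ∀ W ∈ D, Disjoint Y W := by
          intro W hW
          rw [Finset.disjoint_left]
          intro v hv hv'
          exact hno v (mem_biUnion.2 ⟨W, hW, hv'⟩) hv
        rcases mem_insert.1 hZ with h3 | h3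
        · rcases mem_insert.1 hZ' with h4 | h4
          · exact absurd (h3.trans h4.symm) hne'
          · rw [h3]; exact hkey _ h4
        · rcases mem_insert.1 hZ' with h4 | h4
          · rw [h4]; exact (hkey _ h3).symm
          · exact hDd _ h3 _ h4 hne'
      have h2 := hmax _ h1
      rw [card_insert_of_notMem hYD] at h2
      omega
    -- encode
    have hsub : Mn A U (b + 1) ⊆ X.biUnion fun v => (Mn A (insert v U) b).image (insert v) := by
      intro Y hY
      obtain ⟨v, hvX, hvY⟩ := hmeet Y hY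
      have h := mem_Mn.1 hY
      have hvU : v ∉ U := fun hv => Finset.disjoint_left.1 h.2.1 hv hvY
      refine mem_biUnion.2 ⟨v, hvX, mem_image.2 ⟨Y.erase v, mem_Mn.2 ⟨?_, ?_, ?_, ?_⟩, ?_⟩⟩
      · rw [card_erase_of_mem hvY, h.1]; rfl
      · rw [Finset.disjoint_left]
        intro u hu hu'
        rcases mem_insert.1 hu with rfl | hu
        · exact (mem_erase.1 hu').1 rfl
        · exact Finset.disjoint_left.1 h.2.1 hu (mem_erase.1 hu').2
      · have e1 : insert v U ∪ Y.erase v = U ∪ Y := by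
          ext w
          simp only [mem_union, mem_insert, mem_erase]
          by_cases hw : w = v
          · subst hw; simp [hvY]
          · simp [hw]
        rw [e1]
        exact h.2.2.1
      · intro Z hZ
        have e1 : insert v U ∪ Z = U ∪ insert v Z := by
          ext w
          simp only [mem_union, mem_insert]
          tauto
        rw [e1]
        refine h.2.2.2 _ ?_
        rw [Finset.ssubset_iff_subset_ne] at hZ ⊢
        refine ⟨insert_subset hvY (hZ.1.trans (erase_subset _ _)), ?_⟩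
        intro he
        apply hZ.2
        rw [← he]
        have hvZ : v ∉ Z := fun hv => (mem_erase.1 (hZ.1 hv)).1 rfl
        rw [erase_insert hvZ]
      · exact insert_erase hvY
    refine (card_le_card hsub).trans ?_
    refine (card_biUnion_le).trans ?_
    have h1 : ∀ v ∈ X, ((Mn A (insert v U) b).image (insert v)).card ≤ (L * N) ^ b := by
      intro v _
      refine (card_image_le).trans (ih _ ?_)
      have := card_insert_le v U
      omega
    refine (sum_le_card_nsmul X _ _ h1).trans ?_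
    rw [smul_eq_mul, pow_succ, mul_comm]
    exact Nat.mul_le_mul_left _ hXc

end Pool.Agent.helper33.Mod
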