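import Mathlib

/-!
# Random colourings: resampling, injectivity on extensions, closures of predicates

`V` is a finite set of vertices, a colouring is a function `h : V → Fin c`.
-/

namespace Pool.Agent.helper33.Mod

set_option linter.unusedSectionVars false

open Finset

variable {V : Type} [Fintype V] [DecidableEq V] {c : ℕ}

/-- Resampling one vertex. -/
theorem sum_resample (v : V) (F : (V → Fin c) → ℝ) :
    ∑ h : V → Fin c, ∑ i : Fin c, F (Function.update h v i) = c * ∑ h : V → Fin c, F h := by
  have h1 : ∑ p : (V → Fin c) × Fin c, F (Function.update p.1 v p.2) =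
      ∑ p : (V → Fin c) × Fin c, F p.1 := by
    refine Finset.sum_bij' (fun p _ => (Function.update p.1 v p.2, p.1 v))
      (fun p _ => (Function.update p.1 v p.2, p.1 v)) ?_ ?_ ?_ ?_ ?_
    · intro p _; exact mem_univ _
    · intro p _; exact mem_univ _
    · intro p _
      ext1
      · simp
      · simp
    · intro p _
      ext1
      · simp
      · simp
    · intro p _
      rfl
  rw [Fintype.sum_prod_type] at h1
  rw [h1, Fintype.sum_prod_type]
  simp only [sum_const, card_univ, Fintype.card_fin, nsmul_eq_mul]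
  rw [Finset.mul_sum]

open Classical in
/-- Indicator of a proposition. -/
noncomputable def ind (P : Prop) : ℝ := if P then 1 else 0

theorem ind_true {P : Prop} (h : P) : ind P = 1 := if_pos h
theorem ind_false {P : Prop} (h : ¬ P) : ind P = 0 := if_neg h
theorem ind_nonneg (P : Prop) : 0 ≤ ind P := by unfold ind; split_ifs <;> norm_num
theorem ind_le_one (P : Prop) : ind P ≤ 1 := by unfold ind; split_ifs <;> norm_num
theorem ind_mono {P Q : Prop} (h : P → Q) : ind P ≤ ind Q := by
  by_cases hP : P
  · rw [ind_true hP, ind_true (h hP)]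
  · rw [ind_false hP]; exact ind_nonneg Q
theorem ind_congr {P Q : Prop} (h : P ↔ Q) : ind P = ind Q := by rw [propext h]
theorem ind_and (P Q : Prop) : ind (P ∧ Q) = ind P * ind Q := by
  by_cases hP : P <;> by_cases hQ : Q <;> simp [ind, hP, hQ]
theorem ind_not (P : Prop) : ind (¬ P) = 1 - ind P := by
  by_cases hP : P <;> simp [ind, hP]

theorem sum_ind_mem {α : Type} [Fintype α] (s : Finset α) : ∑ i, ind (i ∈ s) = (s.card : ℝ) := by
  classical
  have h1 : ∀ i, ind (i ∈ s) = if i ∈ s then (1 : ℝ) else 0 := by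
    intro i
    by_cases h : i ∈ s
    · rw [ind_true h, if_pos h]
    · rw [ind_false h, if_neg h]
  simp only [h1]
  rw [Finset.sum_ite_mem]
  simp

/-- Number of colourings with a property. -/
noncomputable def cn (P : (V → Fin c) → Prop) : ℝ := ∑ h, ind (P h)

theorem cn_nonneg (P : (V → Fin c) → Prop) : 0 ≤ cn P := sum_nonneg fun _ _ => ind_nonneg _

theorem cn_mono {P Q : (V → Fin c) → Prop} (h : ∀ x, P x → Q x) : cn P ≤ cn Q :=
  sum_le_sum fun x _ => ind_mono (h x)

theorem cn_true : cn (fun _ : V → Fin c => True) = (c : ℝ) ^ Fintype.card V := by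
  unfold cn
  simp [ind_true trivial, Fintype.card_pi]

theorem cn_or (P Q : (V → Fin c) → Prop) : cn (fun h => P h ∨ Q h) ≤ cn P + cn Q := by
  unfold cn
  rw [← sum_add_distrib]
  refine sum_le_sum fun x _ => ?_
  by_cases hP : P x <;> by_cases hQ : Q x <;> simp [ind, hP, hQ]

theorem cn_split (P Q : (V → Fin c) → Prop) :
    cn P = cn (fun h => P h ∧ Q h) + cn (fun h => P h ∧ ¬ Q h) := by
  unfold cn
  rw [← sum_add_distrib]
  refine sum_congr rfl fun x _ => ?_
  by_cases hP : P x <;> by_cases hQ : Q x <;> simp [ind, hP, hQ]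

/-- Injective on a finite set of vertices. -/
def Inj (h : V → Fin c) (K : Finset V) : Prop := Set.InjOn h (K : Set V)

theorem Inj.mono {h : V → Fin c} {K K' : Finset V} (hi : Inj h K') (hs : K ⊆ K') : Inj h K :=
  Set.InjOn.mono (by exact_mod_cast hs) hi

theorem Inj.update {h : V → Fin c} {K : Finset V} {v : V} (hv : v ∉ K) (i : Fin c) :
    Inj (Function.update h v i) K ↔ Inj h K := by
  have h1 : Set.EqOn (Function.update h v i) h (K : Set V) := by
    intro u hu
    rw [Function.update_of_ne]
    rintro rfl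
    exact hv (by exact_mod_cast hu)
  unfold Inj
  exact h1.injOn_iff

theorem Inj.insert {h : V → Fin c} {K : Finset V} {v : V} (hv : v ∉ K) :
    Inj h (insert v K) ↔ Inj h K ∧ h v ∉ K.image h := by
  unfold Inj
  rw [Finset.coe_insert, Set.injOn_insert (by exact_mod_cast hv)]
  simp

/-- The injectivity of a colouring on `U` extends to `U ∪ Y` with probability close to one, also
conditionally on what happens outside `Y`. -/
theorem inj_extend (hc : 0 < c) (U : Finset V) (Ψ : (V → Fin c) → ℝ) (h0 : ∀ h, 0 ≤ Ψ h)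
    (hU : ∀ h, Ψ h ≠ 0 → Inj h U) (Y : Finset V) (hd : Disjoint U Y)
    (hY : ∀ v ∈ Y, ∀ h i, Ψ (Function.update h v i) = Ψ h) :
    (1 - ((U ∪ Y).card : ℝ) ^ 2 / (2 * c)) * ∑ h, Ψ h ≤ ∑ h, Ψ h * ind (Inj h (U ∪ Y)) := by
  have hcR : (0 : ℝ) < c := by exact_mod_cast hc
  induction Y using Finset.induction_on with
  | empty =>
    have h1 : ∀ h, Ψ h * ind (Inj h (U ∪ ∅)) = Ψ h := by
      intro h
      by_cases hz : Ψ h = 0
      · rw [hz, zero_mul]
      · rw [Finset.union_empty, ind_true (hU h hz), mul_one]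
    simp only [h1]
    have h2 : 0 ≤ ∑ h, Ψ h := sum_nonneg fun h _ => h0 h
    have h3 : 0 ≤ ((U ∪ ∅).card : ℝ) ^ 2 / (2 * c) := by positivity
    nlinarith
  | insert v Y hv ih =>
    have hd' : Disjoint U Y := hd.mono_right (subset_insert v Y)
    have ih' := ih hd' (fun u hu => hY u (mem_insert_of_mem hu))
    have hvU : v ∉ U := fun h => (Finset.disjoint_left.1 hd) h (mem_insert_self v Y)
    have hvK : v ∉ U ∪ Y := by simp [hvU, hv]
    set K := U ∪ Y with hK
    have hKi : U ∪ insert v Y = insert v K := by rw [hK, Finset.union_insert]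
    rw [hKi, card_insert_of_notMem hvK]
    set S := ∑ h, Ψ h * ind (Inj h K) with hS
    -- one step
    have hstep : (1 - (K.card : ℝ) / c) * S ≤ ∑ h, Ψ h * ind (Inj h (insert v K)) := by
      have h1 := sum_resample v (fun h => Ψ h * ind (Inj h (insert v K)))
      have h2 : ∀ h : V → Fin c, (c - K.card : ℝ) * (Ψ h * ind (Inj h K)) ≤
          ∑ i : Fin c, Ψ (Function.update h v i) * ind (Inj (Function.update h v i) (insert v K)) := by
        intro h
        by_cases hi : Inj h K
        · rw [ind_true hi, mul_one]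
          have h3 : ∀ i : Fin c, Ψ (Function.update h v i) *
              ind (Inj (Function.update h v i) (insert v K)) =
                Ψ h * (1 - ind (i ∈ K.image h)) := by
            intro i
            rw [hY v (mem_insert_self v Y)]
            congr 1
            rw [← ind_not]
            refine ind_congr ?_
            rw [Inj.insert hvK, Inj.update hvK, Function.update_self]
            have h4 : K.image (Function.update h v i) = K.image h := by
              refine Finset.image_congr ?_
              intro u hu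
              have hu' : u ∈ K := by exact_mod_cast hu
              exact Function.update_of_ne (by rintro rfl; exact hvK hu') _ _
            rw [h4]
            exact ⟨fun h => h.2, fun h => ⟨hi, h⟩⟩
          simp only [h3]
          rw [← mul_sum, mul_comm]
          refine mul_le_mul_of_nonneg_left ?_ (h0 h)
          rw [sum_sub_distrib]
          have h5 : ∑ i : Fin c, ind (i ∈ K.image h) = ((K.image h).card : ℝ) :=
            sum_ind_mem _
          rw [h5]
          simp only [sum_const, card_univ, Fintype.card_fin, nsmul_eq_mul, mul_one]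
          have h6 : ((K.image h).card : ℝ) ≤ K.card := by exact_mod_cast card_image_le
          linarith
        · rw [ind_false hi, mul_zero, mul_zero]
          exact sum_nonneg fun i _ => mul_nonneg (h0 _) (ind_nonneg _)
      have h7 := sum_le_sum fun h (_ : h ∈ (univ : Finset (V → Fin c))) => h2 h
      rw [h1, ← mul_sum] at h7
      have h8 : (1 - (K.card : ℝ) / c) * S = (c - K.card : ℝ) * S / c := by
        field_simp
      rw [h8, div_le_iff₀ hcR, hS]
      linarith
    have hS0 : 0 ≤ S := sum_nonneg fun h _ => mul_nonneg (h0 h) (ind_nonneg _)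
    have hT0 : 0 ≤ ∑ h, Ψ h := sum_nonneg fun h _ => h0 h
    have hST : S ≤ ∑ h, Ψ h := by
      refine sum_le_sum fun h _ => ?_
      have := ind_le_one (Inj h K)
      nlinarith [h0 h]
    set T := ∑ h, Ψ h with hT
    refine le_trans ?_ hstep
    -- (1 - (k+1)²/(2c)) T ≤ (1 - k/c) S
    have hk : (0 : ℝ) ≤ K.card := by positivity
    have e1 : (1 - (((K.card + 1 : ℕ) : ℝ)) ^ 2 / (2 * c)) * T ≤
        (1 - (K.card : ℝ) ^ 2 / (2 * c)) * T - (K.card : ℝ) / c * T := by
      have e2 : (((K.card + 1 : ℕ) : ℝ)) ^ 2 / (2 * c) =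
          (K.card : ℝ) ^ 2 / (2 * c) + (K.card : ℝ) / c + 1 / (2 * c) := by
        push_cast
        field_simp
        ring
      rw [e2]
      have e3 : 0 ≤ 1 / (2 * (c : ℝ)) := by positivity
      nlinarith
    have e4 : (1 - (K.card : ℝ) / c) * S = S - (K.card : ℝ) / c * S := by ring
    rw [e4]
    have e5 : (K.card : ℝ) / c * S ≤ (K.card : ℝ) / c * T :=
      mul_le_mul_of_nonneg_left hST (by positivity)
    linarith

/-- Pairwise disjoint extensions: all of them fail with small probability. -/
theorem disjoint_fail (hc : 0 < c) (U : Finset V) (D : Finset (Finset V))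
    (hD : ∀ Y ∈ D, Disjoint U Y) (hc2 : ∀ Y ∈ D, (U ∪ Y).card ^ 2 ≤ c)
    (hdis : ∀ Y ∈ D, ∀ Y' ∈ D, Y ≠ Y' → Disjoint Y Y') :
    cn (fun h : V → Fin c => Inj h U ∧ ∀ Y ∈ D, ¬ Inj h (U ∪ Y)) ≤
      (1 / 2) ^ D.card * (c : ℝ) ^ Fintype.card V := by
  have hcR : (0 : ℝ) < c := by exact_mod_cast hc
  induction D using Finset.induction_on with
  | empty =>
    simp only [card_empty, pow_zero, one_mul]
    rw [← cn_true (V := V) (c := c)]
    exact cn_mono fun _ _ => trivial
  | insert Y D hY ih =>
    have ih' := ih (fun Z hZ => hD Z (mem_insert_of_mem hZ))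
      (fun Z hZ => hc2 Z (mem_insert_of_mem hZ))
      (fun Z hZ Z' hZ' => hdis Z (mem_insert_of_mem hZ) Z' (mem_insert_of_mem hZ'))
    set Ψ : (V → Fin c) → ℝ := fun h => ind (Inj h U ∧ ∀ Y ∈ D, ¬ Inj h (U ∪ Y)) with hΨ
    have h1 := inj_extend hc U Ψ (fun h => ind_nonneg _) (by
      intro h hne
      by_contra hi
      exact hne (ind_false fun h2 => hi h2.1)) Y (hD Y (mem_insert_self _ _)) (by
      intro v hv h i
      rw [hΨ]
      refine ind_congr ?_
      have hvU : v ∉ U := fun hu => Finset.disjoint_left.1 (hD Y (mem_insert_self _ _)) hu hv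
      rw [Inj.update hvU]
      refine and_congr_right fun _ => forall₂_congr fun Z hZ => ?_
      rw [Inj.update]
      rw [mem_union, not_or]
      refine ⟨hvU, fun hvZ => ?_⟩
      have hne : Y ≠ Z := by rintro rfl; exact hY hZ
      exact Finset.disjoint_left.1 (hdis Y (mem_insert_self _ _) Z (mem_insert_of_mem hZ) hne)
        hv hvZ)
    have h2 : ((U ∪ Y).card : ℝ) ^ 2 ≤ c := by exact_mod_cast hc2 Y (mem_insert_self _ _)
    have h3 : (1 : ℝ) / 2 ≤ 1 - ((U ∪ Y).card : ℝ) ^ 2 / (2 * c) := by
      have : ((U ∪ Y).card : ℝ) ^ 2 / (2 * c) ≤ 1 / 2 := by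
        rw [div_le_iff₀ (by positivity)]
        linarith
      linarith
    have h4 : 0 ≤ ∑ h, Ψ h := sum_nonneg fun h _ => ind_nonneg _
    have h5 : cn (fun h : V → Fin c => Inj h U ∧ ∀ Z ∈ insert Y D, ¬ Inj h (U ∪ Z)) =
        ∑ h, Ψ h - ∑ h, Ψ h * ind (Inj h (U ∪ Y)) := by
      unfold cn
      rw [← sum_sub_distrib]
      refine sum_congr rfl fun h _ => ?_
      rw [hΨ]
      have h6 : (Inj h U ∧ ∀ Z ∈ insert Y D, ¬ Inj h (U ∪ Z)) ↔
          ((Inj h U ∧ ∀ Y ∈ D, ¬ Inj h (U ∪ Y)) ∧ ¬ Inj h (U ∪ Y)) := by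
        constructor
        · rintro ⟨a, b⟩
          exact ⟨⟨a, fun Z hZ => b Z (mem_insert_of_mem hZ)⟩, b Y (mem_insert_self _ _)⟩
        · rintro ⟨⟨a, b⟩, d⟩
          refine ⟨a, fun Z hZ => ?_⟩
          rcases mem_insert.1 hZ with rfl | hZ
          · exact d
          · exact b Z hZ
      rw [ind_congr h6, ind_and, ind_not]
      ring
    rw [h5, card_insert_of_notMem hY, pow_succ]
    have h7 : ∑ h, Ψ h ≤ (1 / 2) ^ D.card * (c : ℝ) ^ Fintype.card V := ih'
    nlinarith

end Pool.Agent.helper33.Mod
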