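import Mathlib

/-!
# Circuits whose gates are arbitrary monotone functions of few wires
-/

namespace Pool.Agent.helper33.Mod

/-- `MCircuit m n s`: circuits with `n` inputs and `s` gates. The wires are the `n` inputs and then
the `s` gates in their order. Each gate is an ARBITRARY monotone Boolean function `φ` of `d` wires,
`d ≤ m`, each of them an input or an earlier gate. -/
inductive MCircuit (m n : ℕ) : ℕ → Type
  | nil : MCircuit m n 0
  | snoc {s d : ℕ} (C : MCircuit m n s) (hd : d ≤ m) (w : Fin d → Fin (n + s))
      (φ : (Fin d → Bool) → Bool) (hφ : Monotone φ) : MCircuit m n (s + 1)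

/-- The values of all wires of a circuit on the input `x`. -/
def MCircuit.val {m n : ℕ} : {s : ℕ} → MCircuit m n s → (Fin n → Bool) → (Fin (n + s) → Bool)
  | _, MCircuit.nil, x => x
  | _, MCircuit.snoc C _ w φ _, x =>
      Fin.snoc (α := fun _ => Bool) (C.val x) (φ fun j => C.val x (w j))

/-- The clique function: `x` is the adjacency matrix of a graph on the vertices `0, ..., M - 1`
(only the entries `(u, v)` with `u < v` are used), and the graph has a clique with `k` vertices. -/
def Clique (M k : ℕ) (x : Fin (M * M) → Bool) : Prop :=
  ∃ S : Finset (Fin M), S.card = k ∧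
    ∀ u ∈ S, ∀ v ∈ S, u < v → x (finProdFinEquiv (u, v)) = true

end Pool.Agent.helper33.Mod
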