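import Pool.Agent.helper33.Mod.Circ

/-!
# Circuits with arbitrary monotone gates of few wires need many gates for cliques
-/

namespace Pool.Agent.helper33.Mod

open Finset

theorem clique_small {M k : ℕ} (hk : 3 ≤ k) (o : Fin (M * M)) :
    ¬ Clique M k (fun i => decide (i = o)) := by
  classical
  rintro ⟨S, hS, hc⟩
  have h1 : ∀ u ∈ S, ∀ v ∈ S, u < v → (u, v) = finProdFinEquiv.symm o := by
    intro u hu v hv huv
    have h2 := hc u hu v hv huv
    rw [decide_eq_true_eq] at h2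
    rw [← h2, Equiv.symm_apply_apply]
  have h2 : S ⊆ {(finProdFinEquiv.symm o).1, (finProdFinEquiv.symm o).2} := by
    intro u hu
    obtain ⟨v, hv, hne⟩ := S.exists_mem_ne (by omega) u
    rcases lt_or_gt_of_ne hne with h3 | h3
    · have h4 := h1 v hv u hu h3
      rw [mem_insert, mem_singleton]
      right
      rw [← h4]
    · have h4 := h1 u hu v hv h3
      rw [mem_insert, mem_singleton]
      left
      rw [← h4]
  have h3 := (card_le_card h2).trans card_le_two
  omega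

/-- A circuit for cliques has a gate. -/
theorem one_le_size {M k m s : ℕ} (hk : 3 ≤ k) (C : MCircuit m (M * M) s) (o : Fin (M * M + s))
    (hC : ∀ x, C.val x o = true ↔ Clique M k x) : 1 ≤ s := by
  cases C with
  | nil =>
    exfalso
    exact clique_small hk o ((hC (fun i => decide (i = o))).1 (by
      show decide (o = o) = true
      simp))
  | snoc C hd w φ hφ => omega

theorem inj_half {M c l : ℕ} (hc : 0 < c) (hlc : l ^ 2 ≤ c) {K : Finset (Fin M)}
    (hK : K.card ≤ l) : 1 / 2 * (c : ℝ) ^ M ≤ cn (fun h : Fin M → Fin c => Inj h K) := by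
  classical
  have hcR : (0 : ℝ) < c := by exact_mod_cast hc
  have h1 := inj_extend (V := Fin M) hc ∅ (fun _ => (1 : ℝ)) (fun _ => zero_le_one)
    (fun h _ => by unfold Inj; simp) K (disjoint_empty_left _) (fun _ _ _ _ => rfl)
  rw [empty_union] at h1
  have h2 : ∑ h : Fin M → Fin c, (1 : ℝ) = (c : ℝ) ^ M := by simp
  have h3 : ∑ h : Fin M → Fin c, (1 : ℝ) * ind (Inj h K) =
      cn (fun h : Fin M → Fin c => Inj h K) := by
    unfold cn
    exact sum_congr rfl fun _ _ => one_mul _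
  rw [h2, h3] at h1
  refine le_trans ?_ h1
  refine mul_le_mul_of_nonneg_right ?_ (by positivity)
  have h4 : ((K.card : ℝ)) ^ 2 ≤ c := by
    have h5 : K.card ^ 2 ≤ c := (Nat.pow_le_pow_left hK 2).trans hlc
    exact_mod_cast h5
  have h6 : (K.card : ℝ) ^ 2 / (2 * c) ≤ 1 / 2 := by
    rw [div_le_iff₀ (by positivity)]
    linarith
  linarith

theorem main (M k m l s : ℕ) (hm : 1 ≤ m) (hl : 2 ≤ l) (hk : 4 * l ^ 2 < k)
    (hk2 : (4 * (Nat.log 2 M + 1) + 1) * l < k) (C : MCircuit m (M * M) s)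
    (o : Fin (M * M + s)) (hC : ∀ x, C.val x o = true ↔ Clique M k x) :
    ((M : ℝ) / (64 * k ^ 2 * l * (Nat.log 2 M + 1) * Real.sqrt m)) ^ l ≤ s := by
  classical
  have hl2 : l * 2 ≤ l * l := Nat.mul_le_mul_left l hl
  have hk16 : 16 < k := by nlinarith
  have hs1 := one_le_size (by omega) C o hC
  have hs1R : (1 : ℝ) ≤ s := by exact_mod_cast hs1
  obtain ⟨lam, hlam⟩ : ∃ lam, lam = Nat.log 2 M + 1 := ⟨_, rfl⟩
  have hlamR : (Nat.log 2 M : ℝ) + 1 = lam := by rw [hlam]; push_cast; rfl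
  rw [← hlam] at hk2
  rw [hlamR]
  have hlam1 : 1 ≤ lam := by omega
  set q : ℝ := Real.sqrt m with hq
  have hmR : (1 : ℝ) ≤ m := by exact_mod_cast hm
  have hq1 : 1 ≤ q := by rw [hq]; exact Real.one_le_sqrt.2 hmR
  have hq2 : q ^ 2 = m := Real.sq_sqrt (by linarith)
  have hkR : (16 : ℝ) < k := by exact_mod_cast hk16
  have hlR : (2 : ℝ) ≤ l := by exact_mod_cast hl
  have hlamR1 : (1 : ℝ) ≤ lam := by exact_mod_cast hlam1
  have hlkN : l ≤ k := by nlinarith
  have hlk : (l : ℝ) ≤ k := by exact_mod_cast hlkN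
  set D : ℝ := 64 * k ^ 2 * l * lam * q with hD
  have hp1 : (1 : ℝ) ≤ lam * q := one_le_mul_of_one_le_of_one_le hlamR1 hq1
  have hDk : (k : ℝ) ≤ D := by
    have h1 : (1 : ℝ) ≤ 64 * k * l := by nlinarith
    have h2 : (1 : ℝ) ≤ 64 * k * l * (lam * q) := one_le_mul_of_one_le_of_one_le h1 hp1
    have h3 : D = k * (64 * k * l * (lam * q)) := by rw [hD]; ring
    rw [h3]
    nlinarith
  have hD0 : 0 < D := by linarith
  have hD1 : 1 ≤ D := by linarith
  by_cases hDM : (M : ℝ) < D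
  · -- trivial case
    have h1 : (M : ℝ) / D ≤ 1 := by
      rw [div_le_one hD0]
      exact hDM.le
    exact (pow_le_one₀ (by positivity) h1).trans hs1R
  push Not at hDM
  have hMR : (0 : ℝ) < M := by linarith
  have hM : 0 < M := by exact_mod_cast hMR
  have hkM : k ≤ M := by exact_mod_cast hDk.trans hDM
  -- parameters
  set c : ℕ := k - 1 with hc
  have hc0 : 0 < c := by omega
  set N : ℕ := 4 * l * lam with hN
  have hN8 : 8 ≤ N := by
    have h1 : 4 * l * 1 ≤ 4 * l * lam := Nat.mul_le_mul_left _ hlam1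
    omega
  have hlN : l ≤ N := by
    have h1 : 4 * l * 1 ≤ 4 * l * lam := Nat.mul_le_mul_left _ hlam1
    omega
  have hNc : l + N ≤ c := by
    have h1 : (4 * lam + 1) * l = l + N := by rw [hN]; ring
    omega
  set g : ℕ := c / (l + N) with hg
  have hlN0 : 0 < l + N := by omega
  have hg1 : 1 ≤ g := (Nat.one_le_div_iff hlN0).2 hNc
  have hNg : (l + N) * g ≤ c := Nat.mul_div_le c (l + N)
  have hcg : (c : ℝ) / g ≤ 4 * N := by
    have hgR : (0 : ℝ) < g := by exact_mod_cast (by omega : 0 < g)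
    rw [div_le_iff₀ hgR]
    have h1 : c < (l + N) * (g + 1) := Nat.lt_mul_div_succ c hlN0
    have h2 : (l + N) * (g + 1) ≤ (2 * N) * (2 * g) := Nat.mul_le_mul (by omega) (by omega)
    have h3 : c ≤ 4 * N * g := by
      have h4 : (2 * N) * (2 * g) = 4 * N * g := by ring
      omega
    exact_mod_cast h3
  set R : ℝ := 16 * k * N * q with hR
  have hNR : (8 : ℝ) ≤ N := by exact_mod_cast hN8
  have hR0 : 0 < R := by positivity
  have hlc : (2 * l) ^ 2 ≤ c := by
    have h1 : (2 * l) ^ 2 = 4 * l ^ 2 := by ring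
    omega
  have hRN : (2 * l * N : ℝ) * (2 * q) ≤ R := by
    have h1 : (0 : ℝ) ≤ N * q := by positivity
    have h2 : R = 16 * k * (N * q) := by rw [hR]; ring
    have h3 : (2 * l * N : ℝ) * (2 * q) = 4 * l * (N * q) := by ring
    rw [h2, h3]
    nlinarith
  have hx : (k : ℝ) * (c / g * (1 / R)) ≤ 1 / 4 := by
    have h1 : (k : ℝ) * (c / g * (1 / R)) ≤ k * (4 * N * (1 / R)) := by
      refine mul_le_mul_of_nonneg_left ?_ (by positivity)
      exact mul_le_mul_of_nonneg_right hcg (by positivity)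
    refine h1.trans ?_
    have h2 : (k : ℝ) * (4 * N * (1 / R)) = 1 / (4 * q) := by
      rw [hR]
      have hk0 : (k : ℝ) ≠ 0 := by linarith
      have hN0 : (N : ℝ) ≠ 0 := by linarith
      have hq0 : q ≠ 0 := by linarith
      field_simp
      norm_num
    rw [h2]
    apply one_div_le_one_div_of_le (by norm_num)
    linarith
  have hyD : R * (k / M) = D / M := by
    rw [hR, hD, hN]
    push_cast
    ring
  have hy : R * (k / M) ≤ 1 := by
    rw [hyD, div_le_one hMR]
    exact hDM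
  obtain ⟨F, hF, hpos, hneg⟩ := approx (M := M) (l := l) (N := N) (g := g) (k := k) (c := c)
    hM hl (by omega) hc0 hlc hg1 hNg hR0 hq1 (m := m) hq2.ge hRN hx hy C
  by_cases hcase : ∃ K ∈ F o, K.card ≤ l
  · -- many colourings are accepted
    obtain ⟨K, hK, hKl⟩ := hcase
    have h1 := inj_half (M := M) (c := c) (l := l) hc0 (by
      have h2 : (2 * l) ^ 2 = 4 * l ^ 2 := by ring
      omega) hKl
    have h2 : cn (fun h : Fin M → Fin c => Inj h K) ≤
        cn (fun h : Fin M → Fin c => ∃ i, AccH l (F i) h ∧ C.val (gH h) i = false) := by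
      refine cn_mono fun h hi => ⟨o, ⟨K, hK, hKl, hi⟩, ?_⟩
      by_contra hne
      rw [Bool.not_eq_false] at hne
      exact not_clique_gH (by omega) h ((hC _).1 hne)
    have h3 := (h1.trans h2).trans hneg
    have hcM : (0 : ℝ) < (c : ℝ) ^ M := by
      have : (0 : ℝ) < c := by exact_mod_cast hc0
      positivity
    have h4 : (1 / 2 : ℝ) ≤ s * ((M + 1 : ℝ) ^ (2 * l) * (1 / 2) ^ N) := by
      refine le_of_mul_le_mul_right ?_ hcM
      linarith
    have h5 : ((M : ℝ) + 1) ^ (4 * l) ≤ 2 ^ N := by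
      have h6 : M + 1 ≤ 2 ^ lam := by
        rw [hlam]
        exact Nat.lt_pow_succ_log_self (by norm_num) M
      have h7 : ((M : ℝ) + 1) ≤ 2 ^ lam := by exact_mod_cast h6
      calc ((M : ℝ) + 1) ^ (4 * l) ≤ (2 ^ lam) ^ (4 * l) :=
            pow_le_pow_left₀ (by positivity) h7 _
        _ = 2 ^ N := by rw [← pow_mul, hN]; congr 1; ring
    have h8 : (1 / 2 : ℝ) ^ N = 1 / 2 ^ N := by rw [one_div, inv_pow, one_div]
    rw [h8] at h4
    have h2N : (0 : ℝ) < 2 ^ N := by positivity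
    have h9 : (2 : ℝ) ^ N ≤ 2 * s * ((M : ℝ) + 1) ^ (2 * l) := by
      have h10 : (1 / 2 : ℝ) * 2 ^ N ≤ s * ((M + 1 : ℝ) ^ (2 * l) * (1 / 2 ^ N)) * 2 ^ N :=
        mul_le_mul_of_nonneg_right h4 h2N.le
      have h11 : (s : ℝ) * ((M + 1 : ℝ) ^ (2 * l) * (1 / 2 ^ N)) * 2 ^ N =
          s * (M + 1 : ℝ) ^ (2 * l) := by
        field_simp
      rw [h11] at h10
      linarith
    have hP : (0 : ℝ) < ((M : ℝ) + 1) ^ (2 * l) := by positivity
    have h12 : ((M : ℝ) + 1) ^ (2 * l) ≤ 2 * s := by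
      refine le_of_mul_le_mul_right ?_ hP
      have h13 : ((M : ℝ) + 1) ^ (2 * l) * ((M : ℝ) + 1) ^ (2 * l) = ((M : ℝ) + 1) ^ (4 * l) := by
        rw [← pow_add]; congr 1; ring
      rw [h13]
      linarith
    have h14 : (2 : ℝ) ≤ ((M : ℝ) + 1) ^ l := by
      have hM1 : (1 : ℝ) ≤ M := by exact_mod_cast hM
      calc (2 : ℝ) ≤ (M : ℝ) + 1 := by linarith
        _ = ((M : ℝ) + 1) ^ 1 := (pow_one _).symm
        _ ≤ ((M : ℝ) + 1) ^ l := pow_le_pow_right₀ (by linarith) (by omega)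
    have h15 : ((M : ℝ) + 1) ^ (2 * l) = ((M : ℝ) + 1) ^ l * ((M : ℝ) + 1) ^ l := by
      rw [← pow_add]; congr 1; ring
    rw [h15] at h12
    have h16 : ((M : ℝ) + 1) ^ l ≤ s := by nlinarith
    refine le_trans ?_ h16
    refine pow_le_pow_left₀ (by positivity) ?_ _
    rw [div_le_iff₀ hD0]
    nlinarith
  · -- no clique is accepted
    push Not at hcase
    have hch : (0 : ℝ) < M.choose k := by exact_mod_cast Nat.choose_pos hkM
    have h1 : (M.choose k : ℝ) ≤ ∑ Q ∈ powersetCard k (univ : Finset (Fin M)),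
        ind (∃ i, C.val (gQ Q) i = true ∧ ¬ AccQ l (F i) Q) := by
      have h2 : ∀ Q ∈ powersetCard k (univ : Finset (Fin M)),
          ind (∃ i, C.val (gQ Q) i = true ∧ ¬ AccQ l (F i) Q) = 1 := by
        intro Q hQ
        refine ind_true ⟨o, (hC _).2 (clique_gQ (mem_powersetCard.1 hQ).2), ?_⟩
        rintro ⟨K, hK, hKl, _⟩
        exact absurd hKl (by have := hcase K hK; omega)
      rw [sum_congr rfl h2, sum_const, card_powersetCard, card_univ, Fintype.card_fin,
        nsmul_eq_mul, mul_one]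
    have h3 := h1.trans hpos
    have h4 : 1 ≤ (s : ℝ) * (R * (k / M)) ^ l := by
      refine le_of_mul_le_mul_right ?_ hch
      linarith
    rw [hyD] at h4
    have hy0 : 0 < D / M := by positivity
    have h5 : (M : ℝ) / D = (D / M)⁻¹ := by rw [inv_div]
    rw [h5, inv_pow, inv_le_iff_one_le_mul₀ (by positivity)]
    exact h4

end Pool.Agent.helper33.Mod
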