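import Pool.Agent.helper33.Mod.Col

/-!
# Random subsets: second moment; decoupling of colour groups
-/

namespace Pool.Agent.helper33.Mod

set_option linter.unusedSectionVars false

open Finset

variable {V : Type} [Fintype V] [DecidableEq V] {c : ℕ}

/-- Expectation of `f` of a random subset of `S` which contains every element with probability
`p`. -/
noncomputable def Ep (p : ℝ) (S : Finset V) (f : Finset V → ℝ) : ℝ :=
  ∑ B ∈ S.powerset, p ^ B.card * (1 - p) ^ (S \ B).card * f B

theorem Ep_empty (p : ℝ) (f : Finset V → ℝ) : Ep p ∅ f = f ∅ := by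
  unfold Ep
  simp

theorem Ep_insert (p : ℝ) {S : Finset V} {v : V} (hv : v ∉ S) (f : Finset V → ℝ) :
    Ep p (insert v S) f = Ep p S (fun B => (1 - p) * f B + p * f (insert v B)) := by
  unfold Ep
  rw [sum_powerset_insert hv, ← sum_add_distrib]
  refine sum_congr rfl fun B hB => ?_
  have hBS := mem_powerset.1 hB
  have hvB : v ∉ B := fun h => hv (hBS h)
  have e1 : (insert v S \ B).card = (S \ B).card + 1 := by
    rw [insert_sdiff_of_notMem _ hvB, card_insert_of_notMem]
    intro h
    exact hv (mem_sdiff.1 h).1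
  have e2 : (insert v S \ insert v B) = S \ B := by
    ext w
    simp only [mem_sdiff, mem_insert, not_or]
    constructor
    · rintro ⟨h1 | h1, h2, h3⟩
      · exact absurd h1 h2
      · exact ⟨h1, h3⟩
    · rintro ⟨h1, h2⟩
      exact ⟨Or.inr h1, fun e => hv (e ▸ h1), h2⟩
  rw [e1, e2, card_insert_of_notMem hvB]
  ring

theorem Ep_congr (p : ℝ) {S : Finset V} {f g : Finset V → ℝ} (h : ∀ B ⊆ S, f B = g B) :
    Ep p S f = Ep p S g :=
  sum_congr rfl fun B hB => by rw [h B (mem_powerset.1 hB)]

theorem Ep_mono {p : ℝ} (h0 : 0 ≤ p) (h1 : p ≤ 1) {S : Finset V} {f g : Finset V → ℝ}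
    (h : ∀ B ⊆ S, f B ≤ g B) : Ep p S f ≤ Ep p S g := by
  refine sum_le_sum fun B hB => ?_
  have h2 : 0 ≤ 1 - p := by linarith
  exact mul_le_mul_of_nonneg_left (h B (mem_powerset.1 hB)) (by positivity)

theorem Ep_const (p : ℝ) (S : Finset V) (a : ℝ) : Ep p S (fun _ => a) = a := by
  induction S using Finset.induction_on with
  | empty => rw [Ep_empty]
  | insert v S hv ih =>
    rw [Ep_insert p hv]
    have : (fun _ : Finset V => (1 - p) * a + p * a) = fun _ => a := by
      funext _
      ring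
    rw [this, ih]

theorem Ep_add (p : ℝ) (S : Finset V) (f g : Finset V → ℝ) :
    Ep p S (fun B => f B + g B) = Ep p S f + Ep p S g := by
  unfold Ep
  rw [← sum_add_distrib]
  exact sum_congr rfl fun B _ => by ring

theorem Ep_mul (p : ℝ) (S : Finset V) (a : ℝ) (f : Finset V → ℝ) :
    Ep p S (fun B => a * f B) = a * Ep p S f := by
  unfold Ep
  rw [mul_sum]
  exact sum_congr rfl fun B _ => by ring

theorem Ep_sum {ι : Type} (p : ℝ) (S : Finset V) (E : Finset ι) (f : ι → Finset V → ℝ) :
    Ep p S (fun B => ∑ Q ∈ E, f Q B) = ∑ Q ∈ E, Ep p S (f Q) := by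
  classical
  induction E using Finset.induction_on with
  | empty => simp [Ep_const]
  | insert a E ha ih =>
    simp only [sum_insert ha]
    rw [Ep_add, ih]

theorem Ep_sup (p : ℝ) {S : Finset V} : ∀ {I : Finset V}, I ⊆ S →
    Ep p S (fun B => ind (I ⊆ B)) = p ^ I.card := by
  induction S using Finset.induction_on with
  | empty =>
    intro I hI
    rw [Ep_empty, ind_true hI, subset_empty.1 hI]
    simp
  | insert v S hv ih =>
    intro I hI
    rw [Ep_insert p hv]
    by_cases h : v ∈ I
    · have h1 : I.erase v ⊆ S := by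
        intro w hw
        rcases mem_insert.1 (hI (mem_erase.1 hw).2) with e | e
        · exact absurd e (mem_erase.1 hw).1
        · exact e
      have h2 := ih h1
      rw [Ep_congr p (g := fun B => p * ind (I.erase v ⊆ B)), Ep_mul, h2,
        card_erase_of_mem h]
      · rw [← pow_succ']
        congr 1
        have : 0 < I.card := card_pos.2 ⟨v, h⟩
        omega
      · intro B hB
        have h3 : ¬ I ⊆ B := fun h4 => hv (hB (h4 h))
        rw [ind_false h3, mul_zero, zero_add]
        congr 1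
        refine ind_congr ?_
        rw [subset_insert_iff]
    · have h1 : I ⊆ S := by
        intro w hw
        rcases mem_insert.1 (hI hw) with e | e
        · exact absurd (e ▸ hw) h
        · exact e
      rw [Ep_congr p (g := fun B => ind (I ⊆ B)), ih h1]
      intro B hB
      have h3 : (I ⊆ insert v B) ↔ I ⊆ B := by
        rw [subset_insert_iff, erase_eq_of_notMem h]
      rw [ind_congr h3]
      ring

/-- Second moment: a spread family of sets of the same size is hit with probability at least one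
half. -/
theorem second_moment {p R : ℝ} (hp0 : 0 < p) (hp1 : p ≤ 1) (hR : 0 < R) {S : Finset V}
    {E : Finset (Finset V)} (A : Finset V → Finset V) {κ : ℕ} (hE : E.Nonempty)
    (hA : ∀ Q ∈ E, A Q ⊆ S ∧ (A Q).card = κ)
    (hsp : ∀ Z : Finset V, Z.Nonempty →
      ∑ Q ∈ E, ind (Z ⊆ A Q) ≤ 2 * (1 / R) ^ Z.card * E.card)
    (hx : κ * (1 / p * (1 / R)) ≤ 1 / 4) :
    Ep p S (fun B => ind (∀ Q ∈ E, ¬ A Q ⊆ B)) ≤ 1 / 2 := by
  classical
  have hEc : (0 : ℝ) < E.card := by exact_mod_cast card_pos.2 hE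
  set X : Finset V → ℝ := fun B => ∑ Q ∈ E, ind (A Q ⊆ B) with hX
  set μ : ℝ := E.card * p ^ κ with hμ
  have hμ0 : 0 < μ := by positivity
  have hEX : Ep p S X = μ := by
    rw [hX, Ep_sum, hμ]
    rw [sum_congr rfl fun Q hQ => by rw [Ep_sup p (hA Q hQ).1, (hA Q hQ).2]]
    simp
  have hEX2 : Ep p S (fun B => X B * X B) ≤ 2 * μ ^ 2 := by
    have h1 : (fun B => X B * X B) = fun B => ∑ Q ∈ E, ∑ Q' ∈ E, ind (A Q ∪ A Q' ⊆ B) := by
      funext B
      rw [hX]
      simp only
      rw [sum_mul_sum]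
      refine sum_congr rfl fun Q _ => sum_congr rfl fun Q' _ => ?_
      rw [← ind_and]
      exact ind_congr union_subset_iff.symm
    rw [h1, Ep_sum]
    have h2 : ∀ Q ∈ E, Ep p S (fun B => ∑ Q' ∈ E, ind (A Q ∪ A Q' ⊆ B)) ≤
        2 * E.card * (p ^ κ) ^ 2 := by
      intro Q hQ
      rw [Ep_sum]
      have h3 : ∀ Q' ∈ E, Ep p S (fun B => ind (A Q ∪ A Q' ⊆ B)) =
          (p ^ κ) ^ 2 * ∑ Z ∈ (A Q).powerset, (1 / p - 1) ^ Z.card * ind (Z ⊆ A Q') := by
        intro Q' hQ'
        rw [Ep_sup p (union_subset (hA Q hQ).1 (hA Q' hQ').1)]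
        have h4 : ∑ Z ∈ (A Q).powerset, (1 / p - 1) ^ Z.card * ind (Z ⊆ A Q') =
            ∑ Z ∈ (A Q ∩ A Q').powerset, (1 / p - 1) ^ Z.card := by
          have h5 : (A Q ∩ A Q').powerset = (A Q).powerset.filter (fun Z => Z ⊆ A Q') := by
            ext Z
            simp only [mem_powerset, mem_filter, subset_inter_iff]
          rw [h5, sum_filter]
          refine sum_congr rfl fun Z _ => ?_
          by_cases hZ : Z ⊆ A Q'
          · rw [ind_true hZ, if_pos hZ, mul_one]
          · rw [ind_false hZ, if_neg hZ, mul_zero]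
        have h6 := Finset.sum_pow_mul_eq_add_pow (1 / p - 1) 1 (A Q ∩ A Q')
        simp only [one_pow, mul_one, sub_add_cancel] at h6
        rw [h4, h6]
        have h7 : (A Q ∪ A Q').card + (A Q ∩ A Q').card = κ + κ := by
          rw [card_union_add_card_inter, (hA Q hQ).2, (hA Q' hQ').2]
        have h8 : (p ^ κ) ^ 2 = p ^ (A Q ∪ A Q').card * p ^ (A Q ∩ A Q').card := by
          rw [← pow_add, h7, pow_add, sq]
        rw [h8, mul_assoc, ← mul_pow, mul_one_div_cancel hp0.ne', one_pow, mul_one]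
      rw [sum_congr rfl h3, ← mul_sum, sum_comm]
      have h9 : ∑ Z ∈ (A Q).powerset, ∑ Q' ∈ E, (1 / p - 1) ^ Z.card * ind (Z ⊆ A Q') ≤
          2 * E.card := by
        have hq : 0 ≤ 1 / p - 1 := by
          rw [sub_nonneg, le_div_iff₀ hp0]
          linarith
        have h10 : ∀ Z ∈ (A Q).powerset, ∑ Q' ∈ E, (1 / p - 1) ^ Z.card * ind (Z ⊆ A Q') ≤
            2 * E.card * (1 / p * (1 / R)) ^ Z.card - ind (Z = ∅) * E.card := by
          intro Z _
          rw [← mul_sum]
          by_cases hZ : Z = ∅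
          · subst hZ
            rw [ind_true rfl]
            simp only [card_empty, pow_zero, one_mul, mul_one, empty_subset, ind_true trivial,
              sum_const, nsmul_eq_mul]
            linarith
          · rw [ind_false hZ, zero_mul, sub_zero]
            have h11 := hsp Z (nonempty_iff_ne_empty.2 hZ)
            have h12 : (1 / p - 1) ^ Z.card ≤ (1 / p) ^ Z.card :=
              pow_le_pow_left₀ hq (by linarith) _
            have h13 : (0 : ℝ) ≤ ∑ Q ∈ E, ind (Z ⊆ A Q) := sum_nonneg fun _ _ => ind_nonneg _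
            calc (1 / p - 1) ^ Z.card * ∑ Q ∈ E, ind (Z ⊆ A Q)
                ≤ (1 / p) ^ Z.card * (2 * (1 / R) ^ Z.card * E.card) :=
                  mul_le_mul h12 h11 h13 (by positivity)
              _ = 2 * E.card * (1 / p * (1 / R)) ^ Z.card := by rw [mul_pow]; ring
        refine (sum_le_sum h10).trans ?_
        rw [sum_sub_distrib, ← mul_sum]
        have h14 := Finset.sum_pow_mul_eq_add_pow (1 / p * (1 / R)) 1 (A Q)
        simp only [one_pow, mul_one] at h14
        rw [h14, (hA Q hQ).2]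
        have h15 : ∑ Z ∈ (A Q).powerset, ind (Z = ∅) * (E.card : ℝ) = E.card := by
          rw [sum_eq_single ∅]
          · rw [ind_true rfl, one_mul]
          · intro Z _ hZ
            rw [ind_false hZ, zero_mul]
          · intro h
            exact absurd (empty_mem_powerset _) h
        rw [h15]
        have h16 : (1 / p * (1 / R) + 1) ^ κ ≤ 3 / 2 := by
          have h17 : (1 / p * (1 / R) + 1) ^ κ ≤ Real.exp (1 / 4) := by
            calc (1 / p * (1 / R) + 1) ^ κ ≤ (Real.exp (1 / p * (1 / R))) ^ κ :=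
                  pow_le_pow_left₀ (by positivity) (Real.add_one_le_exp _) _
              _ = Real.exp (κ * (1 / p * (1 / R))) := by rw [← Real.exp_nat_mul]
              _ ≤ Real.exp (1 / 4) := Real.exp_le_exp.2 hx
          have h18 : Real.exp (1 / 4) ≤ 3 / 2 := by
            have h19 := Real.one_sub_le_exp_neg (1 / 4)
            rw [Real.exp_neg] at h19
            have h20 := Real.exp_pos (1 / 4)
            have h21 : (1 - 1 / 4) * Real.exp (1 / 4) ≤ 1 := by
              calc (1 - 1 / 4) * Real.exp (1 / 4) ≤ (Real.exp (1 / 4))⁻¹ * Real.exp (1 / 4) :=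
                    mul_le_mul_of_nonneg_right h19 h20.le
                _ = 1 := inv_mul_cancel₀ h20.ne'
            linarith
          exact h17.trans h18
        nlinarith
      calc (p ^ κ) ^ 2 * ∑ Z ∈ (A Q).powerset, ∑ Q' ∈ E, (1 / p - 1) ^ Z.card * ind (Z ⊆ A Q')
          ≤ (p ^ κ) ^ 2 * (2 * E.card) := mul_le_mul_of_nonneg_left h9 (by positivity)
        _ = 2 * E.card * (p ^ κ) ^ 2 := by ring
    refine (sum_le_sum h2).trans ?_
    rw [sum_const, nsmul_eq_mul, hμ]
    apply le_of_eq
    ring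
  -- pointwise inequality
  have hpt : ∀ B ⊆ S, ind (∀ Q ∈ E, ¬ A Q ⊆ B) ≤
      1 + ((-(1 / μ)) * X B + 1 / (4 * μ ^ 2) * (X B * X B)) := by
    intro B _
    have hsq : 1 + ((-(1 / μ)) * X B + 1 / (4 * μ ^ 2) * (X B * X B)) =
        (1 - X B / (2 * μ)) ^ 2 := by
      field_simp
      ring
    by_cases h : ∀ Q ∈ E, ¬ A Q ⊆ B
    · rw [ind_true h]
      have hX0 : X B = 0 := sum_eq_zero fun Q hQ => ind_false (h Q hQ)
      rw [hX0]
      simp
    · rw [ind_false h, hsq]
      positivity
  refine (Ep_mono hp0.le hp1 hpt).trans ?_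
  rw [Ep_add, Ep_const, Ep_add, Ep_mul, Ep_mul, hEX]
  have h1 : 1 / (4 * μ ^ 2) * Ep p S (fun B => X B * X B) ≤ 1 / 2 := by
    calc 1 / (4 * μ ^ 2) * Ep p S (fun B => X B * X B) ≤ 1 / (4 * μ ^ 2) * (2 * μ ^ 2) :=
          mul_le_mul_of_nonneg_left hEX2 (by positivity)
      _ = 1 / 2 := by field_simp; norm_num
  have h2 : -(1 / μ) * μ = -1 := by field_simp
  rw [h2]
  linarith

end Pool.Agent.helper33.Mod
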